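import Mathlib

/-!
# Koe: definitions

Pencils, words of vectors, patterns, and the representation of the free algebra by weighted shifts.
-/

namespace Pool.Agent.Koe

open Polynomial

/-- the diagonal matrix with entries `t` at the rows in `T` and `1` elsewhere -/
noncomputable def dt {R ι : Type} [CommRing R] [DecidableEq ι] (T : Finset ι) : Matrix ι ι R[X] :=
  Matrix.diagonal fun i => if i ∈ T then X else 1

/-- the transfer matrix of the vector `v` -/
noncomputable def tm {R ι α : Type} [CommRing R] [Fintype ι] [DecidableEq ι] [Fintype α]
    (T : Finset ι) (M : α → Matrix ι ι R) (v : α → R) : Matrix ι ι R[X] :=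
  dt T * (∑ x, v x • M x).map C

/-- the word `w` of nonzero vectors is compatible with the pattern `p` -/
def Compat {V : Type} [Zero V] (p : List (Option V)) (w : List V) : Prop :=
  List.Forall₂ (fun o v => v ≠ 0 ∧ ∀ u, o = some u → v = u) p w

/-- the product `f i (u 0) * f (i + 1) (u 1) * ..` along the word `u` -/
def val {F α : Type} [Field F] (f : ℕ → α → F) : ℕ → List α → F
  | _, [] => 1
  | i, x :: u => f i x * val f (i + 1) u

/-- the weighted shift of the letter `x` -/
def sh {F α : Type} [Field F] (f : ℕ → α → F) (x : α) : Module.End F (ℕ → F) where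
  toFun φ i := f i x * φ (i + 1)
  map_add' φ ψ := by funext i; simp [mul_add]
  map_smul' c φ := by funext i; simp [mul_left_comm]

/-- the representation of the free algebra by weighted shifts -/
noncomputable def rho {F α : Type} [Field F] (f : ℕ → α → F) :
    MonoidAlgebra F (FreeMonoid α) →ₐ[F] Module.End F (ℕ → F) :=
  MonoidAlgebra.lift F (Module.End F (ℕ → F)) (FreeMonoid α) (FreeMonoid.lift (sh f))

end Pool.Agent.Koe
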