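import Mathlib

set_option autoImplicit false

namespace Pool.Agent.Koe

section zorn

variable {T : Type} [Ring T]

/-- a maximal ideal among those containing no power of `b` -/
private theorem exists_max (K0 : TwoSidedIdeal T) (b : T) (hb : ∀ n : ℕ, b ^ n ∉ K0) :
    ∃ P : TwoSidedIdeal T, K0 ≤ P ∧ (∀ n : ℕ, b ^ n ∉ P) ∧
      ∀ Q : TwoSidedIdeal T, P ≤ Q → (∀ n : ℕ, b ^ n ∉ Q) → Q ≤ P := by
  obtain ⟨P, hP, hmax⟩ := zorn_le_nonempty₀ {P : TwoSidedIdeal T | ∀ n : ℕ, b ^ n ∉ P} (by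
    intro c hc hch y hy
    refine ⟨TwoSidedIdeal.mk' (⋃ I ∈ c, (I : Set T)) ?_ ?_ ?_ ?_ ?_, ?_, ?_⟩
    · rw [Set.mem_iUnion₂]
      exact ⟨y, hy, y.zero_mem⟩
    · intro a a' ha ha'
      rw [Set.mem_iUnion₂] at ha ha' ⊢
      obtain ⟨I, hI, hI2⟩ := ha
      obtain ⟨J, hJ, hJ2⟩ := ha'
      rcases hch.total hI hJ with h | h
      · exact ⟨J, hJ, J.add_mem (h hI2) hJ2⟩
      · exact ⟨I, hI, I.add_mem hI2 (h hJ2)⟩
    · intro a ha
      rw [Set.mem_iUnion₂] at ha ⊢
      obtain ⟨I, hI, hI2⟩ := ha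
      exact ⟨I, hI, I.neg_mem hI2⟩
    · intro a a' ha
      rw [Set.mem_iUnion₂] at ha ⊢
      obtain ⟨I, hI, hI2⟩ := ha
      exact ⟨I, hI, I.mul_mem_left _ _ hI2⟩
    · intro a a' ha
      rw [Set.mem_iUnion₂] at ha ⊢
      obtain ⟨I, hI, hI2⟩ := ha
      exact ⟨I, hI, I.mul_mem_right _ _ hI2⟩
    · intro n hn
      rw [TwoSidedIdeal.mem_mk', Set.mem_iUnion₂] at hn
      obtain ⟨I, hI, hI2⟩ := hn
      exact hc hI n hI2
    · intro I hI x hx
      rw [TwoSidedIdeal.mem_mk', Set.mem_iUnion₂]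
      exact ⟨I, hI, hx⟩) K0 hb
  refine ⟨P, hP, hmax.1, fun Q hQ hQ2 => hmax.2 hQ2 hQ⟩

/-- the quotient by such an ideal is prime and has no nil ideals -/
private theorem max_nil (P : TwoSidedIdeal T) (b : T)
    (hmax : ∀ Q : TwoSidedIdeal T, P ≤ Q → (∀ n : ℕ, b ^ n ∉ Q) → Q ≤ P) (hb : ∀ n : ℕ, b ^ n ∉ P)
    (I : TwoSidedIdeal P.ringCon.Quotient) (hI : ∀ x ∈ I, IsNilpotent x) : ∀ x ∈ I, x = 0 := by
  have hmk : ∀ a : T, P.ringCon.mk' a = 0 ↔ a ∈ P := by
    intro a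
    rw [← TwoSidedIdeal.mem_ker, TwoSidedIdeal.ker_ringCon_mk']
  have hle : P ≤ TwoSidedIdeal.comap P.ringCon.mk' I := by
    intro x hx
    have h1 := (hmk x).2 hx
    rw [TwoSidedIdeal.mem_comap, h1]
    exact I.zero_mem
  have h2 : TwoSidedIdeal.comap P.ringCon.mk' I ≤ P := by
    refine hmax _ hle fun n hn => ?_
    rw [TwoSidedIdeal.mem_comap] at hn
    obtain ⟨k, hk⟩ := hI _ hn
    rw [← map_pow, hmk, ← pow_mul] at hk
    exact hb _ hk
  intro x hx
  obtain ⟨a, rfl⟩ := RingCon.mk'_surjective (c := P.ringCon) x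
  refine (hmk a).2 (h2 ?_)
  rw [TwoSidedIdeal.mem_comap]
  exact hx

private theorem max_prime (P : TwoSidedIdeal T) (b : T)
    (hmax : ∀ Q : TwoSidedIdeal T, P ≤ Q → (∀ n : ℕ, b ^ n ∉ Q) → Q ≤ P) (hb : ∀ n : ℕ, b ^ n ∉ P)
    (x y : P.ringCon.Quotient) (hxy : ∀ r, x * r * y = 0) : x = 0 ∨ y = 0 := by
  have hmk : ∀ a : T, P.ringCon.mk' a = 0 ↔ a ∈ P := by
    intro a
    rw [← TwoSidedIdeal.mem_ker, TwoSidedIdeal.ker_ringCon_mk']
  by_contra hcon
  rw [not_or] at hcon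
  obtain ⟨hx, hy⟩ := hcon
  obtain ⟨a, rfl⟩ := RingCon.mk'_surjective (c := P.ringCon) x
  obtain ⟨c, rfl⟩ := RingCon.mk'_surjective (c := P.ringCon) y
  have hxy' : ∀ r, a * r * c ∈ P := by
    intro r
    rw [← hmk, map_mul, map_mul]
    exact hxy _
  have ha : a ∉ P := fun h => hx ((hmk a).2 h)
  have hc : c ∉ P := fun h => hy ((hmk c).2 h)
  -- the left annihilator
  obtain ⟨i, hi⟩ : ∃ i : ℕ, ∀ r, b ^ i * r * c ∈ P := by
    by_contra hno
    push Not at hno
    set Q : TwoSidedIdeal T := TwoSidedIdeal.mk' {z | ∀ r, z * r * c ∈ P}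
      (by intro r; rw [zero_mul, zero_mul]; exact P.zero_mem)
      (by intro z z' hz hz' r; rw [add_mul, add_mul]; exact P.add_mem (hz r) (hz' r))
      (by intro z hz r; rw [neg_mul, neg_mul]; exact P.neg_mem (hz r))
      (by intro z z' hz r; rw [mul_assoc z, mul_assoc z]; exact P.mul_mem_left _ _ (hz r))
      (by intro z z' hz r; rw [mul_assoc z]; exact hz _) with hQ
    have h1 : Q ≤ P := by
      refine hmax Q ?_ ?_
      · intro z hz
        rw [hQ, TwoSidedIdeal.mem_mk']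
        intro r
        exact P.mul_mem_right _ _ (P.mul_mem_right _ _ hz)
      · intro n hn
        rw [hQ, TwoSidedIdeal.mem_mk'] at hn
        obtain ⟨r, hr⟩ := hno n
        exact hr (hn r)
    apply ha
    apply h1
    rw [hQ, TwoSidedIdeal.mem_mk']
    exact hxy'
  obtain ⟨j, hj⟩ : ∃ j : ℕ, ∀ r, b ^ i * r * b ^ j ∈ P := by
    by_contra hno
    push Not at hno
    set Q : TwoSidedIdeal T := TwoSidedIdeal.mk' {z | ∀ r, b ^ i * r * z ∈ P}
      (by intro r; rw [mul_zero]; exact P.zero_mem)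
      (by intro z z' hz hz' r; rw [mul_add]; exact P.add_mem (hz r) (hz' r))
      (by intro z hz r; rw [mul_neg]; exact P.neg_mem (hz r))
      (by intro z z' hz r; rw [← mul_assoc, mul_assoc (b ^ i)]; exact hz _)
      (by intro z z' hz r; rw [← mul_assoc]; exact P.mul_mem_right _ _ (hz r)) with hQ
    have h1 : Q ≤ P := by
      refine hmax Q ?_ ?_
      · intro z hz
        rw [hQ, TwoSidedIdeal.mem_mk']
        intro r
        exact P.mul_mem_left _ _ hz
      · intro n hn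
        rw [hQ, TwoSidedIdeal.mem_mk'] at hn
        obtain ⟨r, hr⟩ := hno n
        exact hr (hn r)
    apply hc
    apply h1
    rw [hQ, TwoSidedIdeal.mem_mk']
    exact hi
  have := hj 1
  rw [mul_one, ← pow_add] at this
  exact hb _ this

end zorn

section mat

variable {F A E : Type} [Field F] [Ring A] [Algebra F A] [Ring E] [Algebra F E]

private theorem uv_pow {A : Type} [Ring A] {m k : ℕ} (U : Matrix (Fin m) (Fin k) A) (V : Matrix (Fin k) (Fin m) A) (n : ℕ) :
    (U * V) ^ (n + 1) = U * (V * U) ^ n * V := by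
  induction n with
  | zero => simp
  | succ n ih =>
    rw [pow_succ, ih, pow_succ (V * U)]
    simp only [Matrix.mul_assoc]

/-- products through size `k` are nilpotent -/
private theorem low_rank (ε : A →ₐ[F] F) (ρ : A →ₐ[F] E) {m k : ℕ}
    (hnil : ∀ X : Matrix (Fin k) (Fin k) A, (∀ i j, ε (X i j) = 0) → IsNilpotent (X.map ρ))
    (U : Matrix (Fin m) (Fin k) A) (V : Matrix (Fin k) (Fin m) A) (h : (U * V).map ε = 0) :
    ∃ n, ((U * V) ^ n).map ρ = 0 := by
  have h1 : (((V * U) * (V * U))).map ε = 0 := by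
    have h2 : (V * U) * (V * U) = V * (U * V) * U := by simp only [Matrix.mul_assoc]
    rw [h2, Matrix.map_mul, Matrix.map_mul, h]
    simp
  obtain ⟨n, hn⟩ := hnil ((V * U) * (V * U)) (fun i j => by
    have := congrFun (congrFun h1 i) j
    simpa using this)
  refine ⟨2 * n + 1, ?_⟩
  rw [uv_pow, pow_mul, pow_two, Matrix.map_mul, Matrix.map_mul]
  have h3 : (((V * U) * (V * U)) ^ n).map ρ = (((V * U) * (V * U)).map ρ) ^ n := by
    exact map_pow (ρ.toRingHom.mapMatrix) _ _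
  rw [h3, hn]
  simp

/-- matrices with scalar augmentation -/
private noncomputable def TT (ε : A →ₐ[F] F) (m : ℕ) : Subalgebra F (Matrix (Fin m) (Fin m) A) :=
  (⊥ : Subalgebra F (Matrix (Fin m) (Fin m) F)).comap ε.mapMatrix

private theorem mem_TT (ε : A →ₐ[F] F) (m : ℕ) (X : Matrix (Fin m) (Fin m) A) (h : X.map ε = 0) : X ∈ TT ε m := by
  rw [TT, Subalgebra.mem_comap]
  have h1 : ε.mapMatrix X = 0 := h
  rw [h1]
  exact Subalgebra.zero_mem _

/-- one row of a matrix -/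
private def rowM {m : ℕ} (Y : Matrix (Fin m) (Fin m) A) (i : Fin m) : Matrix (Fin m) (Fin m) A :=
  Matrix.of fun a j => if a = i then Y i j else 0

omit [Field F] [Algebra F A] in
private theorem rowM_sum {m : ℕ} (Y : Matrix (Fin m) (Fin m) A) : ∑ i, rowM Y i = Y := by
  ext a j
  rw [Matrix.sum_apply]
  simp [rowM]

omit [Field F] [Algebra F A] in
private theorem rowM_apply {m : ℕ} (Y : Matrix (Fin m) (Fin m) A) (i a j : Fin m) :
    rowM Y i a j = (if a = i then 1 else 0) * Y i j := by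
  simp [rowM]

private theorem rowM_map (ε : A →ₐ[F] F) {m : ℕ} (Y : Matrix (Fin m) (Fin m) A) (h : Y.map ε = 0) (i : Fin m) :
    (rowM Y i).map ε = 0 := by
  ext a j
  have := congrFun (congrFun h i) j
  rw [Matrix.map_apply] at this ⊢
  rw [rowM_apply, map_mul, this]
  simp

/-- **From nil matrix rings to the ring of the theorem.** -/
theorem herst (ε : A →ₐ[F] F) (ρ : A →ₐ[F] E) {q : ℕ} (hq : 0 < q)
    (hnil : ∀ X : Matrix (Fin (2 * q)) (Fin (2 * q)) A, (∀ i j, ε (X i j) = 0) → IsNilpotent (X.map ρ))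
    (B : Matrix (Fin (2 * q + 1)) (Fin (2 * q + 1)) A) (hB : ∀ i j, ε (B i j) = 0)
    (hBn : ¬ IsNilpotent (B.map ρ)) :
    ∃ (R : Type) (_ : Ring R) (_ : Algebra F R) (D : Set R),
      (∀ I : TwoSidedIdeal R, (∀ x ∈ I, IsNilpotent x) → ∀ x ∈ I, x = 0) ∧
      (∀ x y : R, (∀ r : R, x * r * y = 0) → x = 0 ∨ y = 0) ∧
      (∃ x y : R, x * y ≠ y * x) ∧
      (∀ d ∈ D, ∀ r : R, r * d ∈ D ∧ d * r ∈ D) ∧
      (∀ x : R, ∃ (c : F) (g : Fin (2 * q + 1) → R), (∀ i, g i ∈ D) ∧ x = algebraMap F R c + ∑ i, g i) ∧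
      (∀ g : Fin (2 * q) → R, (∀ i, g i ∈ D) → IsNilpotent (∑ i, g i)) := by
  classical
  set b : TT ε (2 * q + 1) := ⟨B, mem_TT ε _ B (by ext i j; simpa using hB i j)⟩ with hb
  set ρm : TT ε (2 * q + 1) →ₐ[F] Matrix (Fin (2 * q + 1)) (Fin (2 * q + 1)) E := ρ.mapMatrix.comp (TT ε (2 * q + 1)).val with hρm
  obtain ⟨P, hP, hbP, hmax⟩ := exists_max (TwoSidedIdeal.ker ρm) b (by
    intro n hn
    rw [TwoSidedIdeal.mem_ker, map_pow] at hn
    exact hBn ⟨n, hn⟩)
  have hmk : ∀ a : TT ε (2 * q + 1), P.ringCon.mk' a = 0 ↔ a ∈ P := by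
    intro a
    rw [← TwoSidedIdeal.mem_ker, TwoSidedIdeal.ker_ringCon_mk']
  have hsurj : Function.Surjective (P.ringCon.mk') := RingCon.mk'_surjective (c := P.ringCon)
  set D : Set P.ringCon.Quotient := {x | ∃ t : TT ε (2 * q + 1), P.ringCon.mk' t = x ∧ t.1.map ε = 0 ∧
    ∃ u v : Fin (2 * q + 1) → A, ∀ i j, t.1 i j = u i * v j} with hD
  have hεT : ∀ t : TT ε (2 * q + 1), ∃ c : F, t.1.map ε = algebraMap F _ c := by
    intro t
    have h1 : ε.mapMatrix t.1 ∈ (⊥ : Subalgebra F (Matrix (Fin (2 * q + 1)) (Fin (2 * q + 1)) F)) := t.2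
    rw [Algebra.mem_bot] at h1
    obtain ⟨c, hc⟩ := h1
    exact ⟨c, hc.symm⟩
  -- sums of `k` elements of `D` are nilpotent
  have hDnil : ∀ g : Fin (2 * q) → P.ringCon.Quotient, (∀ i, g i ∈ D) → IsNilpotent (∑ i, g i) := by
    intro g hg
    choose t ht ht0 u v huv using hg
    have hsum : ∑ i, g i = P.ringCon.mk' (∑ i, t i) := by
      rw [map_sum]
      exact Finset.sum_congr rfl fun i _ => (ht i).symm
    have h1 : (∑ i, t i : TT ε (2 * q + 1)).1 = (Matrix.of fun a i => u i a) * (Matrix.of fun i a => v i a) := by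
      ext a c
      rw [AddSubmonoidClass.coe_finsetSum, Matrix.sum_apply, Matrix.mul_apply]
      refine Finset.sum_congr rfl fun i _ => ?_
      rw [huv]
      rfl
    obtain ⟨n, hn⟩ := low_rank ε ρ hnil (Matrix.of fun a i => u i a) (Matrix.of fun i a => v i a) (by
      rw [← h1, AddSubmonoidClass.coe_finsetSum]
      ext a c
      rw [Matrix.map_apply, Matrix.sum_apply, map_sum]
      refine Finset.sum_eq_zero fun i _ => ?_
      have := congrFun (congrFun (ht0 i) a) c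
      simpa using this)
    refine ⟨n, ?_⟩
    rw [hsum, ← map_pow, hmk]
    apply hP
    rw [TwoSidedIdeal.mem_ker]
    have h2 : ((∑ i, t i) ^ n : TT ε (2 * q + 1)).1 = (∑ i, t i : TT ε (2 * q + 1)).1 ^ n := rfl
    have h3 : ρm ((∑ i, t i) ^ n) = ((∑ i, t i : TT ε (2 * q + 1)).1 ^ n).map ρ := rfl
    rw [h3, h1]
    exact hn
  -- decomposition
  have hdec : ∀ x : P.ringCon.Quotient, ∃ (c : F) (g : Fin (2 * q + 1) → P.ringCon.Quotient), (∀ i, g i ∈ D) ∧
      x = algebraMap F _ c + ∑ i, g i := by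
    intro x
    obtain ⟨t, rfl⟩ := hsurj x
    obtain ⟨c, hc⟩ := hεT t
    have h0 : (t.1 - algebraMap F (Matrix (Fin (2 * q + 1)) (Fin (2 * q + 1)) A) c).map ε = 0 := by
      have h1 : (algebraMap F (Matrix (Fin (2 * q + 1)) (Fin (2 * q + 1)) A) c).map ε = algebraMap F _ c :=
        AlgHom.commutes ε.mapMatrix c
      ext i j
      have h2 := congrFun (congrFun hc i) j
      have h3 := congrFun (congrFun h1 i) j
      rw [Matrix.map_apply] at h2 h3
      rw [Matrix.map_apply, Matrix.sub_apply, map_sub, h2, h3, sub_self]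
      rfl
    set Y := t.1 - algebraMap F (Matrix (Fin (2 * q + 1)) (Fin (2 * q + 1)) A) c with hY
    refine ⟨c, fun i => P.ringCon.mk' ⟨rowM Y i, mem_TT ε _ _ (rowM_map ε Y h0 i)⟩, ?_, ?_⟩
    · intro i
      exact ⟨_, rfl, rowM_map ε Y h0 i, fun a => if a = i then 1 else 0, fun j => Y i j, fun a j => rowM_apply Y i a j⟩
    · rw [← map_sum]
      have h1 : algebraMap F (P.ringCon.Quotient) c = P.ringCon.mk' (algebraMap F (TT ε (2 * q + 1)) c) := rfl
      rw [h1, ← map_add]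
      congr 1
      apply Subtype.ext
      rw [Subalgebra.coe_add, AddSubmonoidClass.coe_finsetSum]
      have h3 := rowM_sum Y
      have h4 : (algebraMap F (TT ε (2 * q + 1)) c).1 = algebraMap F (Matrix (Fin (2 * q + 1)) (Fin (2 * q + 1)) A) c := rfl
      rw [h4, h3, hY]
      abel
  have h0D : (0 : P.ringCon.Quotient) ∈ D := by
    refine ⟨0, map_zero _, ?_, 0, 0, ?_⟩
    · ext i j
      simp
    · intro i j
      simp
  have hDone : ∀ d ∈ D, IsNilpotent d := by
    intro d hd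
    have h1 := hDnil (fun i => if i = ⟨0, by omega⟩ then d else 0) (by
      intro i
      split_ifs
      · exact hd
      · exact h0D)
    rwa [Finset.sum_ite_eq' Finset.univ (⟨0, by omega⟩ : Fin (2 * q)) (fun _ => d), if_pos (Finset.mem_univ _)] at h1
  refine ⟨P.ringCon.Quotient, inferInstance, inferInstance, D, max_nil P b hmax hbP, max_prime P b hmax hbP, ?_, ?_, hdec, hDnil⟩
  · by_contra hcomm
    push Not at hcomm
    have h1 : IsNilpotent (P.ringCon.mk' b) := by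
      have hB0 : B.map ε = 0 := by
        ext i j
        exact hB i j
      have h2 : b = ∑ i, (⟨rowM B i, mem_TT ε _ _ (rowM_map ε B hB0 i)⟩ : TT ε (2 * q + 1)) := by
        apply Subtype.ext
        rw [AddSubmonoidClass.coe_finsetSum]
        exact (rowM_sum B).symm
      rw [h2, map_sum]
      refine Commute.isNilpotent_sum ?_ ?_
      · intro i _
        apply hDone
        exact ⟨_, rfl, rowM_map ε B hB0 i, fun a => if a = i then 1 else 0, fun j => B i j, fun a j => rowM_apply B i a j⟩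
      · intro i j _ _
        exact hcomm _ _
    obtain ⟨n, hn⟩ := h1
    rw [← map_pow, hmk] at hn
    exact hbP n hn
  · rintro d ⟨t, rfl, ht0, u, v, huv⟩ r
    obtain ⟨s, rfl⟩ := hsurj r
    refine ⟨⟨s * t, map_mul _ _ _, ?_, fun i => ∑ l, s.1 i l * u l, v, ?_⟩, ⟨t * s, map_mul _ _ _, ?_, u, fun j => ∑ l, v l * s.1 l j, ?_⟩⟩
    · have h1 : (s * t : TT ε (2 * q + 1)).1 = s.1 * t.1 := rfl
      rw [h1, Matrix.map_mul, ht0, Matrix.mul_zero]
    · intro i j
      have h1 : (s * t : TT ε (2 * q + 1)).1 = s.1 * t.1 := rfl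
      rw [h1, Matrix.mul_apply, Finset.sum_mul]
      refine Finset.sum_congr rfl fun l _ => ?_
      rw [huv, mul_assoc]
    · have h1 : (t * s : TT ε (2 * q + 1)).1 = t.1 * s.1 := rfl
      rw [h1, Matrix.map_mul, ht0, Matrix.zero_mul]
    · intro i j
      have h1 : (t * s : TT ε (2 * q + 1)).1 = t.1 * s.1 := rfl
      rw [h1, Matrix.mul_apply, Finset.mul_sum]
      refine Finset.sum_congr rfl fun l _ => ?_
      rw [huv, mul_assoc]

end mat

end Pool.Agent.Koe
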