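import Mathlib
import Pool.Agent.Koe.Defs

/-!
# Koe: the pencil of a matrix over the free algebra, and nilpotency

States: pairs `(u, a)`, `u` a suffix of a word of the support, `a : Fin k`; the states `([], a)` carry the variable `t`.
-/

namespace Pool.Agent.Koe

open Polynomial

variable {F α : Type} [Field F]

/-- the word `u` acts -/
def wd (f : ℕ → α → F) (u : List α) (χ : ℕ → F) (i : ℕ) : F := val f i u * χ (i + u.length)

theorem wd_nil (f : ℕ → α → F) (χ : ℕ → F) (i : ℕ) : wd f [] χ i = χ i := by
  simp [wd, val]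

theorem wd_cons (f : ℕ → α → F) (x : α) (u : List α) (χ : ℕ → F) (i : ℕ) :
    wd f (x :: u) χ i = f i x * wd f u χ (i + 1) := by
  rw [wd, wd, val, List.length_cons, mul_assoc]
  congr 3
  omega

theorem lift_sh (f : ℕ → α → F) (u : List α) (χ : ℕ → F) (i : ℕ) :
    (FreeMonoid.lift (sh f) (FreeMonoid.ofList u)) χ i = wd f u χ i := by
  induction u generalizing χ i with
  | nil => rw [wd_nil]; rfl
  | cons x u ih =>
    rw [wd_cons, FreeMonoid.ofList_cons, map_mul, FreeMonoid.lift_eval_of, Module.End.mul_apply, ← ih]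
    rfl

theorem rho_apply (f : ℕ → α → F) (h : MonoidAlgebra F (FreeMonoid α)) (χ : ℕ → F) (i : ℕ) :
    rho f h χ i = ∑ w ∈ h.coeff.support, h.coeff w * wd f w.toList χ i := by
  classical
  rw [rho, MonoidAlgebra.lift_apply, Finsupp.sum, LinearMap.sum_apply, Finset.sum_apply]
  refine Finset.sum_congr rfl fun w _ => ?_
  rw [LinearMap.smul_apply, Pi.smul_apply, smul_eq_mul, ← lift_sh]
  rfl

theorem rho_apply' (f : ℕ → α → F) (h : MonoidAlgebra F (FreeMonoid α)) (h0 : h.coeff 1 = 0)
    [Fintype α] [DecidableEq α] (S : Finset (List α))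
    (hS : ∀ x v, h.coeff (FreeMonoid.ofList (x :: v)) ≠ 0 → v ∈ S) (χ : ℕ → F) (i : ℕ) :
    rho f h χ i =
      ∑ v ∈ S, (∑ x, f i x * h.coeff (FreeMonoid.ofList (x :: v))) * wd f v χ (i + 1) := by
  classical
  have h1 : ∑ v ∈ S, (∑ x, f i x * h.coeff (FreeMonoid.ofList (x :: v))) * wd f v χ (i + 1) =
      ∑ p ∈ S ×ˢ (Finset.univ : Finset α), h.coeff (FreeMonoid.ofList (p.2 :: p.1)) *
        wd f (p.2 :: p.1) χ i := by
    rw [Finset.sum_product]
    refine Finset.sum_congr rfl fun v _ => ?_
    rw [Finset.sum_mul]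
    refine Finset.sum_congr rfl fun x _ => ?_
    rw [wd_cons]
    ring
  have h2 : ∑ p ∈ S ×ˢ (Finset.univ : Finset α), h.coeff (FreeMonoid.ofList (p.2 :: p.1)) *
        wd f (p.2 :: p.1) χ i =
      ∑ w ∈ (S ×ˢ (Finset.univ : Finset α)).image (fun p => FreeMonoid.ofList (p.2 :: p.1)),
        h.coeff w * wd f w.toList χ i := by
    rw [Finset.sum_image]
    · rfl
    · rintro ⟨u, x⟩ _ ⟨v, y⟩ _ huv
      have h3 : x :: u = y :: v := FreeMonoid.ofList.injective huv
      rw [List.cons.injEq] at h3
      rw [h3.1, h3.2]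
  rw [rho_apply, h1, h2]
  refine Finset.sum_subset ?_ ?_
  · intro w hw
    rw [Finsupp.mem_support_iff] at hw
    rw [Finset.mem_image]
    rcases hw' : w.toList with _ | ⟨x, v⟩
    · have h4 : w = 1 := FreeMonoid.toList.injective hw'
      rw [h4] at hw
      exact absurd h0 hw
    · have h4 : w = FreeMonoid.ofList (x :: v) := by
        rw [← hw']; rfl
      rw [h4] at hw
      exact ⟨(v, x), Finset.mem_product.2 ⟨hS x v hw, Finset.mem_univ _⟩, h4.symm⟩
  · intro w _ hw
    rw [Finsupp.mem_support_iff, not_not] at hw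
    rw [hw, zero_mul]

section

variable [Fintype α] [DecidableEq α] {k : ℕ}

/-- the suffixes of the words of the supports -/
noncomputable def suf (h : Matrix (Fin k) (Fin k) (MonoidAlgebra F (FreeMonoid α))) :
    Finset (List α) :=
  insert [] (Finset.univ.biUnion fun p : Fin k × Fin k =>
    (h p.1 p.2).coeff.support.biUnion fun w => w.toList.tails.toFinset)

omit [Fintype α] in
theorem nil_mem_suf (h : Matrix (Fin k) (Fin k) (MonoidAlgebra F (FreeMonoid α))) :
    ([] : List α) ∈ suf h := Finset.mem_insert_self _ _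

omit [Fintype α] in
theorem mem_suf (h : Matrix (Fin k) (Fin k) (MonoidAlgebra F (FreeMonoid α))) {a b : Fin k}
    {w : List α} (hw : (h a b).coeff (FreeMonoid.ofList w) ≠ 0) {v : List α} (hv : v <:+ w) :
    v ∈ suf h := by
  refine Finset.mem_insert_of_mem (Finset.mem_biUnion.2 ⟨(a, b), Finset.mem_univ _, ?_⟩)
  refine Finset.mem_biUnion.2 ⟨FreeMonoid.ofList w, Finsupp.mem_support_iff.2 hw, ?_⟩
  rw [List.mem_toFinset, List.mem_tails]
  exact hv

omit [Fintype α] in
theorem tail_mem_suf (h : Matrix (Fin k) (Fin k) (MonoidAlgebra F (FreeMonoid α))) {x : α}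
    {v : List α} (hv : x :: v ∈ suf h) : v ∈ suf h := by
  rw [suf, Finset.mem_insert] at hv
  rcases hv with hv | hv
  · cases hv
  · obtain ⟨p, -, hv⟩ := Finset.mem_biUnion.1 hv
    obtain ⟨w, hw, hv⟩ := Finset.mem_biUnion.1 hv
    rw [List.mem_toFinset, List.mem_tails] at hv
    exact mem_suf h (a := p.1) (b := p.2) (w := w.toList) (Finsupp.mem_support_iff.1 hw)
      ((List.suffix_cons x v).trans hv)

/-- the states -/
abbrev St (h : Matrix (Fin k) (Fin k) (MonoidAlgebra F (FreeMonoid α))) : Type :=
  suf h × Fin k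

/-- the states which carry the variable -/
noncomputable def Tset (h : Matrix (Fin k) (Fin k) (MonoidAlgebra F (FreeMonoid α))) :
    Finset (St h) :=
  Finset.univ.image fun a : Fin k => ((⟨[], nil_mem_suf h⟩, a) : St h)

omit [Fintype α] in
theorem mem_Tset (h : Matrix (Fin k) (Fin k) (MonoidAlgebra F (FreeMonoid α))) (s : St h) :
    s ∈ Tset h ↔ (s.1 : List α) = [] := by
  rw [Tset, Finset.mem_image]
  constructor
  · rintro ⟨a, -, rfl⟩
    rfl
  · rintro hs
    obtain ⟨⟨u, hu⟩, a⟩ := s
    simp only at hs
    subst hs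
    exact ⟨a, Finset.mem_univ _, rfl⟩

omit [Fintype α] in
theorem card_Tset (h : Matrix (Fin k) (Fin k) (MonoidAlgebra F (FreeMonoid α))) :
    (Tset h).card = k := by
  rw [Tset, Finset.card_image_of_injective, Finset.card_univ, Fintype.card_fin]
  intro a b hab
  exact congrArg Prod.snd hab

/-- the coefficient matrices of the pencil -/
noncomputable def pen (h : Matrix (Fin k) (Fin k) (MonoidAlgebra F (FreeMonoid α))) (x : α) :
    Matrix (St h) (St h) F := fun s s' =>
  if (s.1 : List α) = [] then (h s.2 s'.2).coeff (FreeMonoid.ofList (x :: s'.1))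
  else if (s.1 : List α) = x :: s'.1 ∧ s.2 = s'.2 then 1 else 0

theorem tm_apply {R ι β : Type} [CommRing R] [Fintype ι] [DecidableEq ι] [Fintype β]
    (T : Finset ι) (M : β → Matrix ι ι R) (v : β → R) (i j : ι) :
    tm T M v i j = (if i ∈ T then X else 1) * C (∑ x, v x * M x i j) := by
  rw [tm, dt, Matrix.diagonal_mul, Matrix.map_apply, Matrix.sum_apply]
  simp only [Matrix.smul_apply, smul_eq_mul]

theorem natDegree_tm_le {R ι β : Type} [CommRing R] [Fintype ι] [DecidableEq ι] [Fintype β]
    (T : Finset ι) (M : β → Matrix ι ι R) (v : β → R) (i j : ι) :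
    (tm T M v i j).natDegree ≤ 1 := by
  rw [tm_apply]
  split_ifs
  · refine natDegree_mul_le.trans ?_
    rw [natDegree_C, add_zero]
    exact natDegree_X_le
  · rw [one_mul, natDegree_C]
    exact Nat.zero_le _

/-- the transfer matrices along a window -/
noncomputable def win {ι β : Type} [Fintype ι] [DecidableEq ι] [Fintype β]
    (T : Finset ι) (M : β → Matrix ι ι F) (f : ℕ → β → F) (i L : ℕ) : Matrix ι ι F[X] :=
  ((List.range L).map fun j => tm T M (f (i + j))).prod

theorem win_succ {ι β : Type} [Fintype ι] [DecidableEq ι] [Fintype β]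
    (T : Finset ι) (M : β → Matrix ι ι F) (f : ℕ → β → F) (i L : ℕ) :
    win T M f i (L + 1) = win T M f i L * tm T M (f (i + L)) := by
  rw [win, win, List.range_succ, List.map_append, List.prod_append]
  simp

theorem natDegree_win_le {ι β : Type} [Fintype ι] [DecidableEq ι] [Fintype β]
    (T : Finset ι) (M : β → Matrix ι ι F) (f : ℕ → β → F) (i L : ℕ) (a b : ι) :
    (win T M f i L a b).natDegree ≤ L := by
  induction L generalizing a b with
  | zero =>
    rw [win, List.range_zero, List.map_nil, List.prod_nil, Matrix.one_apply]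
    split_ifs <;> simp
  | succ L ih =>
    rw [win_succ, Matrix.mul_apply]
    refine natDegree_sum_le_of_forall_le _ _ fun c _ => ?_
    exact natDegree_mul_le.trans (Nat.add_le_add (ih a c) (natDegree_tm_le _ _ _ _ _))

/-- **nilpotency** if all windows of length `L` have transfer matrix `0` -/
theorem nil_of_zero (h : Matrix (Fin k) (Fin k) (MonoidAlgebra F (FreeMonoid α)))
    (h0 : ∀ a b, (h a b).coeff 1 = 0) (f : ℕ → α → F) (L : ℕ)
    (hL : ∀ i, win (Tset h) (pen h) f i L = 0) : (h.map (rho f)) ^ L = 0 := by
  classical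
  ext a b φ i
  -- the columns of the powers
  set g : ℕ → Fin k → ℕ → F := fun n c => ((h.map (rho f)) ^ n) c b φ with hg
  have hg1 : ∀ n c, g (n + 1) c = ∑ e, rho f (h c e) (g n e) := by
    intro n c
    rw [hg]
    simp only
    rw [pow_succ', Matrix.mul_apply, LinearMap.sum_apply]
    rfl
  have hg2 : ∀ n c i, g (n + 1) c i = ∑ s : St h,
      (∑ x, f i x * (h c s.2).coeff (FreeMonoid.ofList (x :: s.1))) *
        wd f s.1 (g n s.2) (i + 1) := by
    intro n c i
    rw [hg1, Finset.sum_apply, Fintype.sum_prod_type_right]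
    refine Finset.sum_congr rfl fun e _ => ?_
    rw [rho_apply' f (h c e) (h0 c e) (suf h) (fun x v hx => mem_suf h hx (List.suffix_cons x v)),
      ← Finset.sum_coe_sort]
  -- the generating series
  set Ps : ℕ → St h → PowerSeries F := fun i s => PowerSeries.mk fun n => wd f s.1 (g n s.2) i
    with hPs
  have hPc : ∀ i s n, PowerSeries.coeff n (Ps i s) = wd f s.1 (g n s.2) i := by
    intro i s n
    rw [hPs]
    simp only [PowerSeries.coeff_mk]
  have hrec : ∀ i s, Ps i s = ∑ s', (tm (Tset h) (pen h) (f i) s s' : PowerSeries F) * Ps (i + 1) s' +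
      (if (s.1 : List α) = [] then PowerSeries.C (g 0 s.2 i) else 0) := by
    intro i s
    ext n
    rw [hPc, map_add, map_sum]
    by_cases hs : (s.1 : List α) = []
    · have hT : s ∈ Tset h := (mem_Tset h s).2 hs
      have e1 : ∀ s', (tm (Tset h) (pen h) (f i) s s' : PowerSeries F) * Ps (i + 1) s' =
          PowerSeries.X * (PowerSeries.C (∑ x, f i x * (h s.2 s'.2).coeff
            (FreeMonoid.ofList (x :: s'.1))) * Ps (i + 1) s') := by
        intro s'
        rw [tm_apply, if_pos hT, Polynomial.coe_mul, Polynomial.coe_X, Polynomial.coe_C, mul_assoc]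
        congr 3
        refine Finset.sum_congr rfl fun x _ => ?_
        rw [pen, if_pos hs]
      rw [if_pos hs, hs, wd_nil]
      rcases n with _ | n
      · rw [PowerSeries.coeff_zero_C, Finset.sum_eq_zero, zero_add]
        intro s' _
        rw [e1, PowerSeries.coeff_zero_X_mul]
      · rw [hg2, PowerSeries.coeff_C, if_neg (Nat.succ_ne_zero n), add_zero]
        refine Finset.sum_congr rfl fun s' _ => ?_
        rw [e1, PowerSeries.coeff_succ_X_mul, PowerSeries.coeff_C_mul, hPc]
    · have hT : s ∉ Tset h := fun h1 => hs ((mem_Tset h s).1 h1)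
      obtain ⟨y, v, hyv⟩ : ∃ y v, (s.1 : List α) = y :: v := List.exists_cons_of_ne_nil hs
      have hv : v ∈ suf h := tail_mem_suf h (x := y) (by rw [← hyv]; exact s.1.2)
      have e1 : ∀ s', PowerSeries.coeff n ((tm (Tset h) (pen h) (f i) s s' : PowerSeries F) *
          Ps (i + 1) s') = if s' = ((⟨v, hv⟩, s.2) : St h) then
            f i y * wd f v (g n s.2) (i + 1) else 0 := by
        intro s'
        rw [tm_apply, if_neg hT, one_mul, Polynomial.coe_C, PowerSeries.coeff_C_mul, hPc]
        split_ifs with h2
        · subst h2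
          simp only
          congr 1
          rw [Finset.sum_eq_single y]
          · rw [pen, if_neg hs, if_pos ⟨hyv, rfl⟩, mul_one]
          · intro x _ hx
            rw [pen, if_neg hs, if_neg, mul_zero]
            rintro ⟨h3, -⟩
            rw [hyv] at h3
            exact hx (List.cons.inj h3).1.symm
          · intro h3
            exact absurd (Finset.mem_univ _) h3
        · rw [Finset.sum_eq_zero, zero_mul]
          intro x _
          rw [pen, if_neg hs, if_neg, mul_zero]
          rintro ⟨h3, h4⟩
          rw [hyv] at h3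
          apply h2
          exact Prod.ext (Subtype.ext (List.cons.inj h3).2.symm) h4.symm
      rw [if_neg hs, map_zero, add_zero, Finset.sum_congr rfl fun s' _ => e1 s',
        Finset.sum_ite_eq' Finset.univ, if_pos (Finset.mem_univ _), hyv, wd_cons]
  -- iteration
  have hit : ∀ (L : ℕ) (i : ℕ) (s : St h) (n : ℕ), L ≤ n → PowerSeries.coeff n (Ps i s) =
      PowerSeries.coeff n (∑ s', (win (Tset h) (pen h) f i L s s' : PowerSeries F) *
        Ps (i + L) s') := by
    intro L
    induction L with
    | zero =>
      intro i s n _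
      congr 1
      rw [Finset.sum_eq_single s]
      · rw [win, List.range_zero, List.map_nil, List.prod_nil, Matrix.one_apply_eq,
          Polynomial.coe_one, one_mul, add_zero]
      · intro s' _ hs'
        rw [win, List.range_zero, List.map_nil, List.prod_nil, Matrix.one_apply_ne (Ne.symm hs'),
          Polynomial.coe_zero, zero_mul]
      · intro h3
        exact absurd (Finset.mem_univ _) h3
    | succ L ih =>
      intro i s n hn
      rw [ih i s n (by omega)]
      have e1 : ∑ s', (win (Tset h) (pen h) f i L s s' : PowerSeries F) * Ps (i + L) s' =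
          ∑ s', (win (Tset h) (pen h) f i (L + 1) s s' : PowerSeries F) * Ps (i + (L + 1)) s' +
          ∑ s', (win (Tset h) (pen h) f i L s s' : PowerSeries F) *
            (if (s'.1 : List α) = [] then PowerSeries.C (g 0 s'.2 (i + L)) else 0) := by
        have e2 : ∀ s'', (win (Tset h) (pen h) f i (L + 1) s s'' : PowerSeries F) =
            ∑ s', (win (Tset h) (pen h) f i L s s' : PowerSeries F) *
              (tm (Tset h) (pen h) (f (i + L)) s' s'' : PowerSeries F) := by
          intro s''
          rw [win_succ, Matrix.mul_apply, ← Polynomial.coeToPowerSeries.ringHom_apply, map_sum]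
          refine Finset.sum_congr rfl fun s' _ => ?_
          rw [map_mul]
          rfl
        calc ∑ s', (win (Tset h) (pen h) f i L s s' : PowerSeries F) * Ps (i + L) s'
            = ∑ s', ((win (Tset h) (pen h) f i L s s' : PowerSeries F) *
                (∑ s'', (tm (Tset h) (pen h) (f (i + L)) s' s'' : PowerSeries F) *
                  Ps (i + L + 1) s'') + (win (Tset h) (pen h) f i L s s' : PowerSeries F) *
                (if (s'.1 : List α) = [] then PowerSeries.C (g 0 s'.2 (i + L)) else 0)) := by
              refine Finset.sum_congr rfl fun s' _ => ?_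
              rw [← mul_add, ← hrec]
          _ = _ := by
              rw [Finset.sum_add_distrib]
              congr 1
              simp only [Finset.mul_sum]
              rw [Finset.sum_comm]
              refine Finset.sum_congr rfl fun s'' _ => ?_
              rw [e2, Finset.sum_mul]
              refine Finset.sum_congr rfl fun s' _ => ?_
              rw [mul_assoc, add_assoc]
      have e3 : PowerSeries.coeff n (∑ s', (win (Tset h) (pen h) f i L s s' : PowerSeries F) *
            (if (s'.1 : List α) = [] then PowerSeries.C (g 0 s'.2 (i + L)) else 0)) = 0 := by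
        rw [map_sum]
        refine Finset.sum_eq_zero fun s' _ => ?_
        split_ifs
        · rw [mul_comm, PowerSeries.coeff_C_mul, Polynomial.coeff_coe,
            Polynomial.coeff_eq_zero_of_natDegree_lt, mul_zero]
          exact lt_of_le_of_lt (natDegree_win_le _ _ _ _ _ _ _) (by omega)
        · rw [mul_zero, map_zero]
      rw [e1, map_add, e3, add_zero]
  have hfin := hit L i ((⟨[], nil_mem_suf h⟩, a) : St h) L le_rfl
  rw [hPc, hL] at hfin
  simp only [Matrix.zero_apply, Polynomial.coe_zero, zero_mul, Finset.sum_const_zero, map_zero,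
    wd_nil] at hfin
  exact hfin

end

end Pool.Agent.Koe
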