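import Mathlib
import Pool.Agent.Koe.Defs
import Pool.Agent.Koe.Word

/-!
# Koe: a matrix of size `d` over the augmentation ideal which does not become nilpotent

`L` = companion matrix of `g x_1, ..., g x_d`, `g = (1 - x_0)^(-1)` (a finite geometric series modulo the kernel).  Over `F(s)` let
`psi (i) = 1 / (p_0 (s) ... p_(i-1) (s))` with `p_i (s) = sum_j f_i (j) s ^ j`; then `sum_j s ^ j x_j psi = psi` and the column
`(psi, s psi, ..., s ^ (d-1) psi)` is fixed by `s L`, so `L` is not nilpotent; `L ^ d` has entries in the augmentation ideal.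
-/

set_option autoImplicit false

namespace Pool.Agent.Koe

section W

variable {F α W : Type} [Field F] [AddCommGroup W] [Module F W]

/-- the weighted shift on sequences of vectors -/
private def shW (W : Type) [AddCommGroup W] [Module F W] (f : ℕ → α → F) (x : α) : Module.End F (ℕ → W) where
  toFun φ i := f i x • φ (i + 1)
  map_add' φ ψ := by funext i; simp
  map_smul' c φ := by
    funext i
    simp only [Pi.smul_apply, RingHom.id_apply]
    rw [smul_comm]

private noncomputable def rhoW (W : Type) [AddCommGroup W] [Module F W] (f : ℕ → α → F) :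
    MonoidAlgebra F (FreeMonoid α) →ₐ[F] Module.End F (ℕ → W) :=
  MonoidAlgebra.lift F (Module.End F (ℕ → W)) (FreeMonoid α) (FreeMonoid.lift (shW W f))

private theorem lift_shW (f : ℕ → α → F) (u : List α) (χ : ℕ → W) (i : ℕ) :
    (FreeMonoid.lift (shW W f) (FreeMonoid.ofList u)) χ i = val f i u • χ (i + u.length) := by
  induction u generalizing χ i with
  | nil =>
    rw [val, one_smul]
    rfl
  | cons x u ih =>
    rw [FreeMonoid.ofList_cons, map_mul, FreeMonoid.lift_eval_of, Module.End.mul_apply, val, mul_smul]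
    have h : (shW W f x) ((FreeMonoid.lift (shW W f) (FreeMonoid.ofList u)) χ) i =
      f i x • ((FreeMonoid.lift (shW W f) (FreeMonoid.ofList u)) χ) (i + 1) := rfl
    rw [h, ih, List.length_cons]
    congr 3
    omega

private theorem rhoW_apply (f : ℕ → α → F) (h : MonoidAlgebra F (FreeMonoid α)) (χ : ℕ → W) (i : ℕ) :
    rhoW W f h χ i = ∑ w ∈ h.coeff.support, (h.coeff w * val f i w.toList) • χ (i + w.toList.length) := by
  classical
  rw [rhoW, MonoidAlgebra.lift_apply, Finsupp.sum, LinearMap.sum_apply, Finset.sum_apply]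
  refine Finset.sum_congr rfl fun w _ => ?_
  rw [LinearMap.smul_apply, Pi.smul_apply, mul_smul, ← lift_shW]
  rfl

/-- an element which kills the scalar sequences kills all sequences of vectors -/
private theorem rhoW_zero (f : ℕ → α → F) (h : MonoidAlgebra F (FreeMonoid α)) (h0 : rho f h = 0) :
    rhoW W f h = 0 := by
  classical
  refine LinearMap.ext fun χ => funext fun i => ?_
  rw [rhoW_apply]
  have h1 : ∀ L : ℕ, ∑ w ∈ h.coeff.support with w.toList.length = L, h.coeff w * val f i w.toList = 0 := by
    intro L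
    have h2 := congrFun (LinearMap.congr_fun h0 (fun j => if j = i + L then 1 else 0)) i
    rw [rho_apply] at h2
    rw [Finset.sum_filter]
    refine Eq.trans ?_ h2
    refine Finset.sum_congr rfl fun w _ => ?_
    rw [wd]
    by_cases hw : w.toList.length = L
    · rw [if_pos hw, if_pos (by omega), mul_one]
    · rw [if_neg hw, if_neg (by omega), mul_zero, mul_zero]
  rw [← Finset.sum_fiberwise_of_maps_to (s := h.coeff.support)
    (t := h.coeff.support.image fun w => w.toList.length) (g := fun w => w.toList.length)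
    (fun w hw => Finset.mem_image_of_mem _ hw)]
  refine Finset.sum_eq_zero fun L _ => ?_
  have h3 : ∑ w ∈ h.coeff.support with w.toList.length = L, (h.coeff w * val f i w.toList) • χ (i + w.toList.length) =
      (∑ w ∈ h.coeff.support with w.toList.length = L, h.coeff w * val f i w.toList) • χ (i + L) := by
    rw [Finset.sum_smul]
    refine Finset.sum_congr rfl fun w hw => ?_
    rw [(Finset.mem_filter.1 hw).2]
  rw [h3, h1, zero_smul]

private theorem rhoW_scal {K : Type} [Field K] [Algebra F K] (f : ℕ → α → F) (h : MonoidAlgebra F (FreeMonoid α))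
    (s : K) (χ : ℕ → K) : rhoW K f h (s • χ) = s • rhoW K f h χ := by
  funext i
  rw [Pi.smul_apply, rhoW_apply, rhoW_apply, Finset.smul_sum]
  refine Finset.sum_congr rfl fun w _ => ?_
  rw [Pi.smul_apply, smul_comm]

end W

section act

variable {F α K : Type} [Field F] [Field K] [Algebra F K]

/-- matrices over the free algebra act on columns of sequences -/
private noncomputable def act (K : Type) [Field K] [Algebra F K] (f : ℕ → α → F) {d : ℕ} (M : Matrix (Fin d) (Fin d) (MonoidAlgebra F (FreeMonoid α)))
    (Φ : Fin d → ℕ → K) : Fin d → ℕ → K := fun i => ∑ j, rhoW K f (M i j) (Φ j)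

private theorem act_mul (f : ℕ → α → F) {d : ℕ} (M N : Matrix (Fin d) (Fin d) (MonoidAlgebra F (FreeMonoid α)))
    (Φ : Fin d → ℕ → K) : act K f (M * N) Φ = act K f M (act K f N Φ) := by
  funext i
  simp only [act]
  rw [show (∑ j, rhoW K f ((M * N) i j) (Φ j)) = ∑ j, ∑ l, rhoW K f (M i l) (rhoW K f (N l j) (Φ j)) from by
    refine Finset.sum_congr rfl fun j _ => ?_
    rw [Matrix.mul_apply, map_sum, LinearMap.sum_apply]
    refine Finset.sum_congr rfl fun l _ => ?_
    rw [map_mul, Module.End.mul_apply]]
  rw [Finset.sum_comm]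
  refine Finset.sum_congr rfl fun l _ => ?_
  rw [map_sum]

private theorem act_smul (f : ℕ → α → F) {d : ℕ} (M : Matrix (Fin d) (Fin d) (MonoidAlgebra F (FreeMonoid α)))
    (s : K) (Φ : Fin d → ℕ → K) : act K f M (fun j => s • Φ j) = fun i => s • act K f M Φ i := by
  funext i
  simp only [act]
  rw [Finset.smul_sum]
  refine Finset.sum_congr rfl fun j _ => ?_
  rw [rhoW_scal]

private theorem act_one (f : ℕ → α → F) {d : ℕ} (Φ : Fin d → ℕ → K) :
    act K f (1 : Matrix (Fin d) (Fin d) (MonoidAlgebra F (FreeMonoid α))) Φ = Φ := by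
  funext i
  simp only [act]
  rw [Finset.sum_eq_single i]
  · rw [Matrix.one_apply_eq, map_one, Module.End.one_apply]
  · intro j _ hj
    rw [Matrix.one_apply_ne (Ne.symm hj), map_zero, LinearMap.zero_apply]
  · intro h
    exact absurd (Finset.mem_univ _) h

/-- a matrix with a reciprocal eigenvector does not become nilpotent -/
private theorem not_nil_of_eig (f : ℕ → α → F) {d : ℕ} (M : Matrix (Fin d) (Fin d) (MonoidAlgebra F (FreeMonoid α)))
    (s : K) (Φ : Fin d → ℕ → K) (hΦ : Φ ≠ 0) (h : (fun i => s • act K f M Φ i) = Φ) :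
    ¬ IsNilpotent (M.map (rho f)) := by
  rintro ⟨n, hn⟩
  have h1 : ∀ n : ℕ, (fun i => s ^ n • act K f (M ^ n) Φ i) = Φ := by
    intro n
    induction n with
    | zero =>
      rw [pow_zero, pow_zero, act_one]
      funext i
      rw [one_smul]
    | succ n ih =>
      have h2 : act K f (M ^ (n + 1)) Φ = act K f M (act K f (M ^ n) Φ) := by
        rw [pow_succ', act_mul]
      rw [h2]
      have h3 := act_smul f M (s ^ n) (act K f (M ^ n) Φ)
      rw [ih] at h3
      have h4 : (fun i => s ^ (n + 1) • act K f M (act K f (M ^ n) Φ) i) = fun i => s • act K f M Φ i := by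
        funext i
        rw [congrFun h3 i, pow_succ', mul_smul]
      rw [h4, h]
  have h5 : ∀ i j, rho f ((M ^ n) i j) = 0 := by
    intro i j
    have h6 : (M ^ n).map (rho f) = (M.map (rho f)) ^ n := map_pow ((rho f).toRingHom.mapMatrix) M n
    have h7 := congrFun (congrFun (h6.trans hn) i) j
    exact h7
  apply hΦ
  rw [← h1 n]
  funext i
  have h8 : act K f (M ^ n) Φ i = 0 := by
    simp only [act]
    refine Finset.sum_eq_zero fun j _ => ?_
    rw [rhoW_zero f _ (h5 i j), LinearMap.zero_apply]
  rw [h8, smul_zero]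
  rfl

end act

section comp

variable {F α : Type} [Field F]

/-- the augmentation -/
noncomputable def eps (F α : Type) [Field F] : MonoidAlgebra F (FreeMonoid α) →ₐ[F] F :=
  MonoidAlgebra.lift F F (FreeMonoid α) (FreeMonoid.lift fun _ => (0 : F))

theorem eps_apply (a : MonoidAlgebra F (FreeMonoid α)) : eps F α a = a.coeff 1 := by
  classical
  rw [eps, MonoidAlgebra.lift_apply, Finsupp.sum]
  have h : ∀ w : FreeMonoid α, (FreeMonoid.lift fun _ : α => (0 : F)) w = if w = 1 then 1 else 0 := by
    intro w
    rcases hw : w.toList with _ | ⟨x, v⟩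
    · have h4 : w = 1 := FreeMonoid.toList.injective hw
      rw [h4, map_one, if_pos rfl]
    · have h4 : w = FreeMonoid.ofList (x :: v) := by
        rw [← hw]; rfl
      rw [h4, FreeMonoid.ofList_cons, map_mul, FreeMonoid.lift_eval_of, zero_mul, if_neg]
      intro h5
      have h6 := congrArg FreeMonoid.toList h5
      rw [← FreeMonoid.ofList_cons] at h6
      exact absurd h6 (by simp)
  simp only [h, smul_eq_mul, mul_ite, mul_one, mul_zero]
  rw [Finset.sum_ite_eq' _ (1 : FreeMonoid α)]
  split_ifs with h1
  · rfl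
  · exact (Finsupp.notMem_support_iff.1 h1).symm

/-- the generators -/
noncomputable def gen (F : Type) {α : Type} [Field F] (x : α) : MonoidAlgebra F (FreeMonoid α) :=
  MonoidAlgebra.of F (FreeMonoid α) (FreeMonoid.of x)

theorem eps_gen (x : α) : eps F α (gen F x) = 0 := by
  rw [eps, gen, MonoidAlgebra.lift_of, FreeMonoid.lift_eval_of]

private theorem rhoW_gen {W : Type} [AddCommGroup W] [Module F W] (f : ℕ → α → F) (x : α) (χ : ℕ → W) (i : ℕ) :
    rhoW W f (gen F x) χ i = f i x • χ (i + 1) := by
  rw [rhoW, gen, MonoidAlgebra.lift_of, FreeMonoid.lift_eval_of]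
  rfl

variable {d : ℕ}

private noncomputable def Lm (g : MonoidAlgebra F (FreeMonoid (Fin (d + 1)))) :
    Matrix (Fin d) (Fin d) (MonoidAlgebra F (FreeMonoid (Fin (d + 1)))) :=
  Matrix.of fun i j => if i.val = 0 then g * gen F j.succ else if i.val = j.val + 1 then 1 else 0

private theorem Lm_eps (g : MonoidAlgebra F (FreeMonoid (Fin (d + 1)))) (i j : Fin d) :
    eps F _ (Lm g i j) = if i.val = j.val + 1 then 1 else 0 := by
  rw [Lm, Matrix.of_apply]
  by_cases h : i.val = 0
  · rw [if_pos h, map_mul, eps_gen, mul_zero, if_neg (by omega)]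
  · rw [if_neg h]
    split_ifs
    · exact map_one _
    · exact map_zero _

private theorem shift_pow {N : Matrix (Fin d) (Fin d) F} (hN : ∀ i j, N i j = if i.val = j.val + 1 then 1 else 0) (k : ℕ) :
    ∀ i j : Fin d, i.val < j.val + k → (N ^ k) i j = 0 := by
  induction k with
  | zero =>
    intro i j h
    rw [pow_zero, Matrix.one_apply_ne]
    intro h2
    rw [h2] at h
    omega
  | succ k ih =>
    intro i j h
    rw [pow_succ, Matrix.mul_apply]
    refine Finset.sum_eq_zero fun l _ => ?_
    rw [hN l j]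
    split_ifs with h2
    · rw [ih i l (by omega), zero_mul]
    · rw [mul_zero]

/-- **some matrix of size `d` over the augmentation ideal does not become nilpotent** -/
theorem not_nil (f : ℕ → Fin (d + 1) → F) (hf : ∀ i, f i ≠ 0) (hd : 0 < d)
    (h0 : IsNilpotent (rho f (gen F 0))) :
    ∃ B : Matrix (Fin d) (Fin d) (MonoidAlgebra F (FreeMonoid (Fin (d + 1)))),
      (∀ i j, eps F _ (B i j) = 0) ∧ ¬ IsNilpotent (B.map (rho f)) := by
  classical
  obtain ⟨n, hn⟩ := h0
  set g : MonoidAlgebra F (FreeMonoid (Fin (d + 1))) := ∑ i ∈ Finset.range n, gen F 0 ^ i with hg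
  have hg1 : g * (1 - gen F 0) = 1 - gen F 0 ^ n := geom_sum_mul_neg _ _
  have hW : rhoW (RatFunc F) f (gen F 0 ^ n) = 0 := rhoW_zero f _ (by rw [map_pow, hn])
  -- the eigenvector
  set s : RatFunc F := RatFunc.X with hs
  set p : ℕ → RatFunc F := fun i => ∑ j : Fin (d + 1), f i j • s ^ (j : ℕ) with hp
  have hp0 : ∀ i, p i ≠ 0 := by
    intro i h
    have h1 : p i = algebraMap (Polynomial F) (RatFunc F) (∑ j : Fin (d + 1), Polynomial.C (f i j) * Polynomial.X ^ (j : ℕ)) := by
      rw [map_sum, hp]
      refine Finset.sum_congr rfl fun j _ => ?_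
      rw [map_mul, map_pow, RatFunc.algebraMap_X, RatFunc.algebraMap_C, Algebra.smul_def]
      rfl
    rw [h1, map_eq_zero_iff _ (IsFractionRing.injective (Polynomial F) (RatFunc F))] at h
    apply hf i
    funext j
    have h2 := congrArg (fun P => Polynomial.coeff P (j : ℕ)) h
    simp only [Polynomial.finsetSum_coeff, Polynomial.coeff_C_mul, Polynomial.coeff_X_pow, Polynomial.coeff_zero] at h2
    rw [Finset.sum_eq_single j] at h2
    · simpa using h2
    · intro l _ hl
      rw [if_neg, mul_zero]
      intro h3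
      exact hl (Fin.ext h3.symm)
    · intro h3
      exact absurd (Finset.mem_univ _) h3
  set ψ : ℕ → RatFunc F := fun i => ∏ j ∈ Finset.range i, (p j)⁻¹ with hψ
  have hψ1 : ∀ i, ψ i = p i * ψ (i + 1) := by
    intro i
    rw [hψ]
    simp only
    rw [Finset.prod_range_succ, mul_comm (∏ j ∈ Finset.range i, (p j)⁻¹), ← mul_assoc, mul_inv_cancel₀ (hp0 i), one_mul]
  have hψ2 : ∑ j : Fin (d + 1), s ^ (j : ℕ) • rhoW (RatFunc F) f (gen F j) ψ = ψ := by
    funext i
    rw [Finset.sum_apply, hψ1 i, hp]
    simp only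
    rw [Finset.sum_mul]
    refine Finset.sum_congr rfl fun j _ => ?_
    rw [Pi.smul_apply, rhoW_gen, smul_eq_mul, Algebra.smul_def, Algebra.smul_def]
    ring
  have hψ3 : rhoW (RatFunc F) f g (ψ - rhoW (RatFunc F) f (gen F 0) ψ) = ψ := by
    have h1 := congrArg (fun a => rhoW (RatFunc F) f a ψ) hg1
    simp only [map_mul, map_sub, map_one, hW] at h1
    rw [Module.End.mul_apply, LinearMap.sub_apply, LinearMap.sub_apply, Module.End.one_apply, LinearMap.zero_apply, sub_zero] at h1
    exact h1
  set Φ : Fin d → ℕ → RatFunc F := fun j => s ^ (j : ℕ) • ψ with hΦ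
  have hΦ0 : Φ ≠ 0 := by
    intro h
    have h1 := congrFun (congrFun h ⟨0, hd⟩) 0
    rw [hΦ] at h1
    simp [hψ] at h1
  have heig : (fun i => s • act (RatFunc F) f (Lm g) Φ i) = Φ := by
    funext i
    by_cases hi : i.val = 0
    · have h1 : act (RatFunc F) f (Lm g) Φ i = rhoW (RatFunc F) f g (∑ j : Fin d, s ^ (j : ℕ) • rhoW (RatFunc F) f (gen F j.succ) ψ) := by
        simp only [act]
        rw [map_sum]
        refine Finset.sum_congr rfl fun j _ => ?_
        rw [Lm, Matrix.of_apply, if_pos hi, map_mul, Module.End.mul_apply, hΦ]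
        simp only
        rw [rhoW_scal]
      rw [h1, ← rhoW_scal, Finset.smul_sum]
      have h2 : ∑ j : Fin d, s • s ^ (j : ℕ) • rhoW (RatFunc F) f (gen F j.succ) ψ = ψ - rhoW (RatFunc F) f (gen F 0) ψ := by
        have h5 := hψ2
        rw [Fin.sum_univ_succ] at h5
        rw [eq_sub_iff_add_eq']
        refine Eq.trans ?_ h5
        congr 1
        · simp
        · refine Finset.sum_congr rfl fun j _ => ?_
          rw [smul_smul, Fin.val_succ, pow_succ']
      rw [h2, hψ3, hΦ]
      simp [hi]
    · have h1 : act (RatFunc F) f (Lm g) Φ i = Φ ⟨i.val - 1, by omega⟩ := by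
        simp only [act]
        rw [Finset.sum_eq_single ⟨i.val - 1, by omega⟩]
        · rw [Lm, Matrix.of_apply, if_neg hi, if_pos (by simp only; omega), map_one, Module.End.one_apply]
        · intro j _ hj
          rw [Lm, Matrix.of_apply, if_neg hi, if_neg, map_zero, LinearMap.zero_apply]
          intro h3
          apply hj
          apply Fin.ext
          simp only
          omega
        · intro h3
          exact absurd (Finset.mem_univ _) h3
      rw [h1, hΦ]
      simp only
      rw [smul_smul, ← pow_succ', Nat.sub_add_cancel (by omega)]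
  have hL := not_nil_of_eig f (Lm g) s Φ hΦ0 heig
  refine ⟨Lm g ^ d, ?_, ?_⟩
  · intro i j
    have h1 : (Lm g ^ d).map (eps F _) = ((Lm g).map (eps F _)) ^ d := map_pow ((eps F _).toRingHom.mapMatrix) _ _
    have h2 := congrFun (congrFun h1 i) j
    rw [Matrix.map_apply] at h2
    rw [h2]
    exact shift_pow (fun i j => Lm_eps g i j) d i j (by omega)
  · intro h
    apply hL
    have h1 : (Lm g ^ d).map (rho f) = ((Lm g).map (rho f)) ^ d := map_pow ((rho f).toRingHom.mapMatrix) _ _
    rw [h1] at h
    exact h.of_pow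

end comp

end Pool.Agent.Koe
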