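import Pool.Agent.Koe.Seq
import Pool.Agent.Koe.Herst
import Pool.Agent.Koe.NotNil

/-!
# Koe: rings without nil ideals in which many commutators are nilpotent
-/

set_option autoImplicit false

namespace Pool.Agent.Koe

theorem gen_nil {F : Type} [Field F] {d k : ℕ} (hk : 0 < k) (f : ℕ → Fin (d + 1) → F)
    (h : ∀ h : Matrix (Fin k) (Fin k) (MonoidAlgebra F (FreeMonoid (Fin (d + 1)))),
        (∀ a b, (h a b).coeff 1 = 0) → IsNilpotent (h.map (rho f))) : IsNilpotent (rho f (gen F 0)) := by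
  classical
  obtain ⟨n, hn⟩ := h (Matrix.diagonal fun _ => gen F 0) (by
    intro a b
    rw [← eps_apply, Matrix.diagonal_apply]
    split_ifs
    · exact eps_gen 0
    · exact map_zero _)
  refine ⟨n, ?_⟩
  have h1 : ((Matrix.diagonal fun _ : Fin k => gen F (0 : Fin (d + 1))).map (rho f)) = Matrix.diagonal fun _ => rho f (gen F 0) := by
    refine Matrix.ext fun i j => ?_
    rw [Matrix.map_apply, Matrix.diagonal_apply, Matrix.diagonal_apply]
    split_ifs
    · rfl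
    · exact map_zero (rho f)
  rw [h1, Matrix.diagonal_pow] at hn
  have h2 := congrFun (congrFun hn ⟨0, hk⟩) ⟨0, hk⟩
  rw [Matrix.diagonal_apply_eq] at h2
  exact h2

/-- over a countable algebraically closed field -/
theorem main_closed (F : Type) [Field F] [IsAlgClosed F] [Countable F] {q : ℕ} (hq : 0 < q) :
    ∃ (R : Type) (_ : Ring R) (_ : Algebra F R) (D : Set R),
      (∀ I : TwoSidedIdeal R, (∀ x ∈ I, IsNilpotent x) → ∀ x ∈ I, x = 0) ∧
      (∀ x y : R, (∀ r : R, x * r * y = 0) → x = 0 ∨ y = 0) ∧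
      (∃ x y : R, x * y ≠ y * x) ∧
      (∀ d ∈ D, ∀ r : R, r * d ∈ D ∧ d * r ∈ D) ∧
      (∀ x : R, ∃ (c : F) (g : Fin (2 * q + 1) → R), (∀ i, g i ∈ D) ∧ x = algebraMap F R c + ∑ i, g i) ∧
      (∀ g : Fin (2 * q) → R, (∀ i, g i ∈ D) → IsNilpotent (∑ i, g i)) := by
  obtain ⟨f, hf, hnil⟩ := exists_seq (F := F) (d := 2 * q + 1) (k := 2 * q) (by omega)
  obtain ⟨B, hB, hBn⟩ := not_nil f hf (by omega) (gen_nil (by omega) f hnil)
  exact herst (eps F _) (rho f) hq (fun X hX => hnil X fun a b => by rw [← eps_apply]; exact hX a b) B hB hBn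

/-- over a countable field -/
theorem main_countable (K : Type) [Field K] [Countable K] {q : ℕ} (hq : 0 < q) :
    ∃ (R : Type) (_ : Ring R) (_ : Algebra K R) (Z D : Set R),
      (∀ I : TwoSidedIdeal R, (∀ x ∈ I, IsNilpotent x) → ∀ x ∈ I, x = 0) ∧
      (∀ x y : R, (∀ r : R, x * r * y = 0) → x = 0 ∨ y = 0) ∧
      (∃ x y : R, x * y ≠ y * x) ∧
      (∀ z ∈ Z, ∀ r : R, z * r = r * z) ∧
      (∀ d ∈ D, ∀ r : R, r * d ∈ D ∧ d * r ∈ D) ∧
      (∀ x : R, ∃ z ∈ Z, ∃ (g : Fin (2 * q + 1) → R), (∀ i, g i ∈ D) ∧ x = z + ∑ i, g i) ∧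
      (∀ g : Fin (2 * q) → R, (∀ i, g i ∈ D) → IsNilpotent (∑ i, g i)) := by
  have hc : Countable (AlgebraicClosure K) := by
    have h1 := Algebra.IsAlgebraic.cardinalMk_le_max K (AlgebraicClosure K)
    rw [← Cardinal.mk_le_aleph0_iff]
    exact h1.trans (max_le Cardinal.mk_le_aleph0 le_rfl)
  obtain ⟨R, i1, i2, D, h1, h2, h3, h4, h5, h6⟩ := main_closed (AlgebraicClosure K) hq
  refine ⟨R, i1, Algebra.compHom R (algebraMap K (AlgebraicClosure K)), Set.range (algebraMap (AlgebraicClosure K) R), D, h1, h2, h3, ?_, h4, ?_, h6⟩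
  · rintro z ⟨c, rfl⟩ r
    exact Algebra.commutes c r
  · intro x
    obtain ⟨c, g, hg, hx⟩ := h5 x
    exact ⟨_, ⟨c, rfl⟩, g, hg, hx⟩

end Pool.Agent.Koe
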