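import Pool.Agent.Koe.Seq
import Pool.Agent.Koe.Herst2
import Pool.Agent.Koe.NotNil

/-!
# Koe: rings without nil ideals in which many commutators are nilpotent
-/

set_option autoImplicit false

namespace Pool.Agent.Koe

theorem gen_nil2 {F : Type} [Field F] {d k : ℕ} (hk : 0 < k) (f : ℕ → Fin (d + 1) → F)
    (h : ∀ h : Matrix (Fin k) (Fin k) (MonoidAlgebra F (FreeMonoid (Fin (d + 1)))),
        (∀ a b, (h a b).coeff 1 = 0) → IsNilpotent (h.map (rho f))) : IsNilpotent (rho f (gen F 0)) := by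
  classical
  obtain ⟨n, hn⟩ := h (Matrix.diagonal fun _ => gen F 0) (by
    intro a b
    rw [← eps_apply, Matrix.diagonal_apply]
    split_ifs
    · exact eps_gen 0
    · exact map_zero _)
  refine ⟨n, ?_⟩
  have h1 : ((Matrix.diagonal fun _ : Fin k => gen F (0 : Fin (d + 1))).map (rho f)) = Matrix.diagonal fun _ => rho f (gen F 0) := by
    refine Matrix.ext fun i j => ?_
    rw [Matrix.map_apply, Matrix.diagonal_apply, Matrix.diagonal_apply]
    split_ifs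
    · rfl
    · exact map_zero (rho f)
  rw [h1, Matrix.diagonal_pow] at hn
  have h2 := congrFun (congrFun hn ⟨0, hk⟩) ⟨0, hk⟩
  rw [Matrix.diagonal_apply_eq] at h2
  exact h2

/-- over a countable algebraically closed field -/
theorem main_closed2 (F : Type) [Field F] [IsAlgClosed F] [Countable F] {q : ℕ} (hq : 0 < q) :
    ∃ (R : Type) (_ : Ring R) (_ : Algebra F R) (D : Set R) (I : Fin (2 * q + 1) → AddSubgroup R),
      (∀ J : TwoSidedIdeal R, (∀ x ∈ J, IsNilpotent x) → ∀ x ∈ J, x = 0) ∧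
      (∀ x y : R, (∀ r : R, x * r * y = 0) → x = 0 ∨ y = 0) ∧
      (∃ x y : R, x * y ≠ y * x) ∧
      (∀ d ∈ D, ∀ r : R, r * d ∈ D ∧ d * r ∈ D) ∧
      (∀ i, ∀ x ∈ I i, x ∈ D ∧ ∀ r : R, x * r ∈ I i) ∧
      (∀ x : R, ∃ (c : F) (g : Fin (2 * q + 1) → R), (∀ i, g i ∈ I i) ∧ x = algebraMap F R c + ∑ i, g i) ∧
      (∀ g : Fin (2 * q) → R, (∀ i, g i ∈ D) → IsNilpotent (∑ i, g i)) := by
  obtain ⟨f, hf, hnil⟩ := exists_seq (F := F) (d := 2 * q + 1) (k := 2 * q) (by omega)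
  obtain ⟨B, hB, hBn⟩ := not_nil f hf (by omega) (gen_nil2 (by omega) f hnil)
  exact herst2 (eps F _) (rho f) hq (fun X hX => hnil X fun a b => by rw [← eps_apply]; exact hX a b) B hB hBn

/-- sums of `q` commutators `[d, y]` are sums of `2 q` elements of `D` -/
theorem comm_nil2 {R : Type} [Ring R] {D : Set R} {q : ℕ} (hD : ∀ d ∈ D, ∀ r : R, r * d ∈ D ∧ d * r ∈ D)
    (hn : ∀ g : Fin (2 * q) → R, (∀ i, g i ∈ D) → IsNilpotent (∑ i, g i))
    (g y : Fin q → R) (hg : ∀ i, g i ∈ D) : IsNilpotent (∑ i, (g i * y i - y i * g i)) := by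
  have h1 : ∑ i, (g i * y i - y i * g i) = ∑ i : Fin (q + q), Fin.append (fun i => g i * y i) (fun i => -y i * g i) i := by
    rw [Fin.sum_univ_add, ← Finset.sum_add_distrib]
    refine Finset.sum_congr rfl fun i _ => ?_
    rw [Fin.append_left, Fin.append_right, neg_mul, sub_eq_add_neg]
  have h2 : ∀ i, Fin.append (fun i => g i * y i) (fun i => -y i * g i) i ∈ D := by
    intro i
    refine Fin.addCases (fun i => ?_) (fun i => ?_) i
    · rw [Fin.append_left]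
      exact (hD _ (hg i) _).2
    · rw [Fin.append_right]
      exact (hD _ (hg i) _).1
  have h3 : ∀ m, m = q + q → (∀ g : Fin m → R, (∀ i, g i ∈ D) → IsNilpotent (∑ i, g i)) →
      (∀ g : Fin (q + q) → R, (∀ i, g i ∈ D) → IsNilpotent (∑ i, g i)) := by
    rintro m rfl h
    exact h
  rw [h1]
  exact h3 _ (two_mul q) hn _ h2

/-- over a countable field -/
theorem main_countable2 (K : Type) [Field K] [Countable K] {q : ℕ} (hq : 0 < q) :
    ∃ (R : Type) (_ : Ring R) (_ : Algebra K R) (Z D : Set R) (I : Fin (2 * q + 1) → AddSubgroup R),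
      (∀ J : TwoSidedIdeal R, (∀ x ∈ J, IsNilpotent x) → ∀ x ∈ J, x = 0) ∧
      (∀ x y : R, (∀ r : R, x * r * y = 0) → x = 0 ∨ y = 0) ∧
      (∃ x y : R, x * y ≠ y * x) ∧
      (∀ z ∈ Z, ∀ r : R, z * r = r * z) ∧
      (∀ d ∈ D, ∀ r : R, r * d ∈ D ∧ d * r ∈ D) ∧
      (∀ i, ∀ x ∈ I i, x ∈ D ∧ ∀ r : R, x * r ∈ I i) ∧
      (∀ x : R, ∃ z ∈ Z, ∃ (g : Fin (2 * q + 1) → R), (∀ i, g i ∈ I i) ∧ x = z + ∑ i, g i) ∧
      (∀ g : Fin (2 * q) → R, (∀ i, g i ∈ D) → IsNilpotent (∑ i, g i)) ∧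
      (∀ g y : Fin q → R, (∀ i, g i ∈ D) → IsNilpotent (∑ i, (g i * y i - y i * g i))) ∧
      (∀ z ∈ Z, ∀ (g : Fin q → R) (y : R), (∀ i, g i ∈ D) →
        IsNilpotent ((z + ∑ i, g i) * y - y * (z + ∑ i, g i))) := by
  have hc : Countable (AlgebraicClosure K) := by
    have h1 := Algebra.IsAlgebraic.cardinalMk_le_max K (AlgebraicClosure K)
    rw [← Cardinal.mk_le_aleph0_iff]
    exact h1.trans (max_le Cardinal.mk_le_aleph0 le_rfl)
  obtain ⟨R, i1, i2, D, I, h1, h2, h3, h4, h5, h6, h7⟩ := main_closed2 (AlgebraicClosure K) hq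
  have h8 := fun g y hg => comm_nil2 h4 h7 g y hg
  refine ⟨R, i1, Algebra.compHom R (algebraMap K (AlgebraicClosure K)), Set.range (algebraMap (AlgebraicClosure K) R), D, I,
    h1, h2, h3, ?_, h4, h5, ?_, h7, h8, ?_⟩
  · rintro z ⟨c, rfl⟩ r
    exact Algebra.commutes c r
  · intro x
    obtain ⟨c, g, hg, hx⟩ := h6 x
    exact ⟨_, ⟨c, rfl⟩, g, hg, hx⟩
  · rintro z ⟨c, rfl⟩ g y hg
    have h9 := h8 g (fun _ => y) hg
    have h10 : (algebraMap (AlgebraicClosure K) R c + ∑ i, g i) * y - y * (algebraMap (AlgebraicClosure K) R c + ∑ i, g i) =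
        ∑ i, (g i * y - y * g i) := by
      rw [Finset.sum_sub_distrib, ← Finset.sum_mul, ← Finset.mul_sum, add_mul, mul_add, Algebra.commutes c y]
      abel
    rw [h10]
    exact h9

end Pool.Agent.Koe
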