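import Mathlib

/-!
# Koe: common zeros in a product of projective spaces

`k ≤ d m` multihomogeneous forms of degree `(r, …, r)`, `r ≥ 1`, in `m` groups of `d + 1` variables over an algebraically closed
field have a common zero all of whose `m` groups are different from `0`.

Proof by counting: otherwise, by the Nullstellensatz, a power of every product `∏ i, X (i, j i)` lies in the ideal of the forms, hence all
monomials of multidegree `(N, …, N)`, `N` large, and so `B_(n + q r)` is spanned by the products of `q` of the forms and of the monomials of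
multidegree `(n, …, n)`; there are `O(q^(k - 1))` of these, but `B_N` has dimension `≥ (N / d + 1)^(d m)`.
-/

namespace Pool.Agent.Koe

open MvPolynomial

/-- the multidegree of a variable -/
def wt (m d : ℕ) : Fin m × Fin (d + 1) → (Fin m → ℕ) := fun p => Pi.single p.1 1

theorem weight_wt {m d : ℕ} (a : Fin m × Fin (d + 1) →₀ ℕ) (i : Fin m) :
    Finsupp.weight (wt m d) a i = ∑ j, a (i, j) := by
  rw [Finsupp.weight_apply, Finsupp.sum_fintype _ _ (by simp), Finset.sum_apply,
    Fintype.sum_prod_type]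
  rw [Finset.sum_eq_single i]
  · refine Finset.sum_congr rfl fun j _ => ?_
    simp [wt]
  · intro b _ hb
    refine Finset.sum_eq_zero fun j _ => ?_
    simp [wt, Pi.single_eq_of_ne (Ne.symm hb)]
  · intro h
    exact absurd (Finset.mem_univ i) h

section

variable {F : Type*} [Field F] {m d : ℕ}

theorem comp_mul {N r : Fin m → ℕ} (g : MvPolynomial (Fin m × Fin (d + 1)) F)
    {P : MvPolynomial (Fin m × Fin (d + 1)) F} (hP : IsWeightedHomogeneous (wt m d) P r) :
    weightedHomogeneousComponent (wt m d) (N + r) (g * P) =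
      weightedHomogeneousComponent (wt m d) N g * P := by
  classical
  induction g using MvPolynomial.induction_on' with
  | monomial a c =>
    have h1 : IsWeightedHomogeneous (wt m d) (monomial a c) (Finsupp.weight (wt m d) a) :=
      isWeightedHomogeneous_monomial _ _ _ rfl
    have h2 := h1.mul hP
    by_cases h : Finsupp.weight (wt m d) a = N
    · rw [h] at h1 h2
      rw [h1.weightedHomogeneousComponent_same, h2.weightedHomogeneousComponent_same]
    · rw [h1.weightedHomogeneousComponent_ne _ (Ne.symm h), h2.weightedHomogeneousComponent_ne _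
        (fun h3 => h (add_right_cancel h3).symm), zero_mul]
  | add p q hp hq =>
    rw [add_mul, map_add, map_add, hp, hq, add_mul]

/-- the monomials of multidegree `(n, …, n)` -/
def Mon (m d n : ℕ) : Set (Fin m × Fin (d + 1) →₀ ℕ) :=
  {a | Finsupp.weight (wt m d) a = fun _ => n}

theorem mem_Mon {n : ℕ} {a : Fin m × Fin (d + 1) →₀ ℕ} :
    a ∈ Mon m d n ↔ ∀ i, ∑ j, a (i, j) = n := by
  constructor
  · intro h i
    rw [← weight_wt, show Finsupp.weight (wt m d) a = fun _ => n from h]
  · intro h
    show Finsupp.weight (wt m d) a = fun _ => n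
    funext i
    rw [weight_wt, h i]

theorem finite_Mon (m d n : ℕ) : (Mon m d n).Finite := by
  refine (Set.finite_Iic (Finsupp.equivFunOnFinite.symm fun _ => n)).subset ?_
  intro a ha
  rw [Set.mem_Iic]
  intro p
  have h1 := mem_Mon.1 ha p.1
  have h2 : a (p.1, p.2) ≤ ∑ j, a (p.1, j) :=
    Finset.single_le_sum (f := fun j => a (p.1, j)) (fun _ _ => Nat.zero_le _) (Finset.mem_univ p.2)
  rw [h1] at h2
  exact h2

theorem mem_span_Mon {n : ℕ} {Q : MvPolynomial (Fin m × Fin (d + 1)) F}
    (hQ : IsWeightedHomogeneous (wt m d) Q (fun _ => n)) :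
    Q ∈ Submodule.span F ((fun a => monomial a (1 : F)) '' Mon m d n) := by
  rw [Q.as_sum]
  refine Submodule.sum_mem _ fun a ha => ?_
  have h1 : a ∈ Mon m d n := hQ (mem_support_iff.1 ha)
  have h2 : monomial a (coeff a Q) = coeff a Q • monomial a (1 : F) := by
    rw [smul_monomial, smul_eq_mul, mul_one]
  rw [h2]
  exact Submodule.smul_mem _ _ (Submodule.subset_span ⟨a, h1, rfl⟩)

variable {k r : ℕ} {P : Fin k → MvPolynomial (Fin m × Fin (d + 1)) F}

theorem exists_rep (hP : ∀ l, IsWeightedHomogeneous (wt m d) (P l) (fun _ => r)) {N : ℕ}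
    {Q : MvPolynomial (Fin m × Fin (d + 1)) F} (hQI : Q ∈ Ideal.span (Set.range P))
    (hQ : IsWeightedHomogeneous (wt m d) Q (fun _ => N + r)) :
    ∃ g : Fin k → MvPolynomial (Fin m × Fin (d + 1)) F,
      (∀ l, IsWeightedHomogeneous (wt m d) (g l) (fun _ => N)) ∧ Q = ∑ l, g l * P l := by
  classical
  rw [Ideal.mem_span_range_iff_exists_fun] at hQI
  obtain ⟨c, hc⟩ := hQI
  refine ⟨fun l => weightedHomogeneousComponent (wt m d) (fun _ => N) (c l),
    fun l => weightedHomogeneousComponent_isWeightedHomogeneous _ _, ?_⟩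
  have h1 := hQ.weightedHomogeneousComponent_same
  rw [← h1, ← hc, map_sum]
  refine Finset.sum_congr rfl fun l _ => ?_
  exact comp_mul (N := fun _ => N) (r := fun _ => r) (c l) (hP l)

theorem mem_span_iter (hP : ∀ l, IsWeightedHomogeneous (wt m d) (P l) (fun _ => r)) {N₀ : ℕ}
    (hI : ∀ N, N₀ ≤ N → ∀ a ∈ Mon m d (N + r), monomial a (1 : F) ∈ Ideal.span (Set.range P)) :
    ∀ (q : ℕ) (Q : MvPolynomial (Fin m × Fin (d + 1)) F),
      IsWeightedHomogeneous (wt m d) Q (fun _ => N₀ + q * r) →
      Q ∈ Submodule.span F (Set.range fun p : Sym (Fin k) q × Mon m d N₀ =>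
        ((p.1 : Multiset (Fin k)).map P).prod * monomial (p.2 : Fin m × Fin (d + 1) →₀ ℕ) (1 : F)) := by
  intro q
  induction q with
  | zero =>
    intro Q hQ
    rw [zero_mul, add_zero] at hQ
    refine Submodule.span_mono ?_ (mem_span_Mon hQ)
    rintro _ ⟨a, ha, rfl⟩
    refine ⟨(Sym.nil, ⟨a, ha⟩), ?_⟩
    simp
  | succ q ih =>
    intro Q hQ
    have e : (fun _ : Fin m => N₀ + (q + 1) * r) = fun _ => (N₀ + q * r) + r := by
      funext _; ring
    rw [e] at hQ
    have hQI : Q ∈ Ideal.span (Set.range P) := by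
      rw [Q.as_sum]
      refine Ideal.sum_mem _ fun a ha => ?_
      have h1 : a ∈ Mon m d (N₀ + q * r + r) := hQ (mem_support_iff.1 ha)
      have h2 := hI (N₀ + q * r) (by omega) a h1
      have h3 : monomial a (coeff a Q) = C (coeff a Q) * monomial a (1 : F) := by
        rw [C_mul_monomial, mul_one]
      rw [h3]
      exact Ideal.mul_mem_left _ _ h2
    obtain ⟨g, hg, hQg⟩ := exists_rep hP hQI hQ
    rw [hQg]
    refine Submodule.sum_mem _ fun l _ => ?_
    have h1 := ih (g l) (hg l)
    have h2 := Submodule.mem_map_of_mem (f := LinearMap.mulRight F (P l)) h1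
    rw [Submodule.map_span] at h2
    rw [LinearMap.mulRight_apply] at h2
    refine Submodule.span_mono ?_ h2
    rintro _ ⟨_, ⟨⟨s, a⟩, rfl⟩, rfl⟩
    refine ⟨(l ::ₛ s, a), ?_⟩
    simp only [Sym.coe_cons, Multiset.map_cons, Multiset.prod_cons, LinearMap.mulRight_apply]
    ring

end

/-- many monomials -/
theorem exists_inj (m d N s : ℕ) (h : d * s ≤ N) :
    ∃ e : (Fin m × Fin d → Fin (s + 1)) → (Fin m × Fin (d + 1) →₀ ℕ), Function.Injective e ∧
      ∀ b, e b ∈ Mon m d N := by
  classical
  refine ⟨fun b => Finsupp.equivFunOnFinite.symm fun p =>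
    Fin.cases (N - ∑ j, (b (p.1, j) : ℕ)) (fun j => (b (p.1, j) : ℕ)) p.2, ?_, ?_⟩
  · intro b b' hb
    funext p
    have h1 := congrArg (fun f => f (p.1, p.2.succ)) hb
    simp only [Finsupp.equivFunOnFinite_symm_apply_apply, Fin.cases_succ] at h1
    exact Fin.ext h1
  · intro b
    rw [mem_Mon]
    intro i
    rw [Fin.sum_univ_succ]
    simp only [Finsupp.equivFunOnFinite_symm_apply_apply, Fin.cases_succ, Fin.cases_zero]
    have h1 : ∑ j, (b (i, j) : ℕ) ≤ ∑ _j : Fin d, s :=
      Finset.sum_le_sum fun j _ => Nat.lt_succ_iff.1 (b (i, j)).2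
    rw [Finset.sum_const, Finset.card_univ, Fintype.card_fin, smul_eq_mul] at h1
    omega

theorem common_zero {F : Type} [Field F] [IsAlgClosed F] {m d k : ℕ} (hk : k ≤ d * m) {r : ℕ}
    (hr : 0 < r) (P : Fin k → MvPolynomial (Fin m × Fin (d + 1)) F)
    (hP : ∀ l, IsWeightedHomogeneous (wt m d) (P l) (fun _ => r)) :
    ∃ x : Fin m → Fin (d + 1) → F, (∀ i, x i ≠ 0) ∧
      ∀ l, MvPolynomial.eval (fun p => x p.1 p.2) (P l) = 0 := by
  classical
  by_contra hcon
  push Not at hcon
  set I : Ideal (MvPolynomial (Fin m × Fin (d + 1)) F) := Ideal.span (Set.range P) with hIdef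
  -- powers of the products of variables
  have hpow : ∀ j : Fin m → Fin (d + 1), ∃ e : ℕ, (∏ i, X (i, j i)) ^ e ∈ I := by
    intro j
    have h1 : (∏ i, X (i, j i)) ∈ I.radical := by
      rw [← vanishingIdeal_zeroLocus_eq_radical (K := F) I, mem_vanishingIdeal_iff]
      intro y hy
      rw [mem_zeroLocus_iff] at hy
      by_contra hne
      rw [map_prod] at hne
      have hne2 : ∀ i, y (i, j i) ≠ 0 := by
        intro i hi
        apply hne
        refine Finset.prod_eq_zero (Finset.mem_univ i) ?_
        simpa using hi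
      obtain ⟨l, hl⟩ := hcon (fun i t => y (i, t)) (fun i h0 => hne2 i (congrFun h0 (j i)))
      apply hl
      have h2 := hy (P l) (Ideal.subset_span ⟨l, rfl⟩)
      simpa [MvPolynomial.aeval_eq_eval] using h2
    exact h1
  choose e he using hpow
  set e₀ : ℕ := Finset.univ.sup e with he₀
  have he1 : ∀ j : Fin m → Fin (d + 1), (∏ i, X (i, j i)) ^ e₀ ∈ I := by
    intro j
    have h1 : e j ≤ e₀ := Finset.le_sup (Finset.mem_univ j)
    exact Ideal.mem_of_dvd _ (pow_dvd_pow _ h1) (he j)
  set N₀ : ℕ := (d + 1) * e₀ with hN₀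
  have hI : ∀ N, N₀ ≤ N → ∀ a ∈ Mon m d (N + r), monomial a (1 : F) ∈ I := by
    intro N hN a ha
    rw [mem_Mon] at ha
    have h1 : ∀ i, ∃ j, e₀ ≤ a (i, j) := by
      intro i
      by_contra hc
      push Not at hc
      have h2 : ∑ j, a (i, j) < ∑ _j : Fin (d + 1), e₀ :=
        Finset.sum_lt_sum_of_nonempty Finset.univ_nonempty fun j _ => hc j
      rw [ha i, Finset.sum_const, Finset.card_univ, Fintype.card_fin, smul_eq_mul] at h2
      omega
    choose j hj using h1
    have h3 : (∏ i, (X (i, j i) : MvPolynomial (Fin m × Fin (d + 1)) F)) ^ e₀ =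
        monomial (∑ i, e₀ • Finsupp.single (i, j i) 1) 1 := by
      rw [← Finset.prod_pow, monomial_sum_one]
      refine Finset.prod_congr rfl fun i _ => ?_
      rw [X_pow_eq_monomial, Finsupp.smul_single, smul_eq_mul, mul_one]
    have h4 : (∑ i, e₀ • Finsupp.single (i, j i) 1) ≤ a := by
      intro p
      rw [Finsupp.finsetSum_apply]
      simp only [Finsupp.smul_apply, Finsupp.single_apply, smul_eq_mul, mul_ite, mul_one, mul_zero]
      rw [Finset.sum_eq_single p.1]
      · split_ifs with h
        · have h5 := hj p.1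
          rwa [h] at h5
        · exact Nat.zero_le _
      · intro b _ hb
        rw [if_neg]
        intro h
        exact hb (congrArg Prod.fst h)
      · intro h
        exact absurd (Finset.mem_univ _) h
    have h5 : monomial a (1 : F) =
        monomial (a - ∑ i, e₀ • Finsupp.single (i, j i) 1) 1 *
          (∏ i, (X (i, j i) : MvPolynomial (Fin m × Fin (d + 1)) F)) ^ e₀ := by
      rw [h3, monomial_mul, mul_one, tsub_add_cancel_of_le h4]
    rw [h5]
    exact Ideal.mul_mem_left _ _ (he1 j)
  -- the case k = 0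
  rcases Nat.eq_zero_or_pos k with hk0 | hk0
  · subst hk0
    obtain ⟨l, -⟩ := hcon (fun _ _ => 1) (fun i h0 => one_ne_zero (congrFun h0 0))
    exact l.elim0
  have hfinM : Finite (Mon m d N₀) := (finite_Mon m d N₀).to_subtype
  have : Fintype (Mon m d N₀) := Fintype.ofFinite _
  set c₀ : ℕ := Fintype.card (Mon m d N₀) with hc₀
  -- counting
  have hcount : ∀ s : ℕ, (s + 1) ^ (d * m) ≤ (k + d * s - 1).choose (d * s) * c₀ := by
    intro s
    obtain ⟨f, hf, hfM⟩ := exists_inj m d (N₀ + (d * s) * r) s (by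
      have h := Nat.le_mul_of_pos_right (d * s) hr
      omega)
    have hli : LinearIndependent F (fun b => (monomial (f b) (1 : F) :
        MvPolynomial (Fin m × Fin (d + 1)) F)) := by
      have h1 := (basisMonomials (Fin m × Fin (d + 1)) F).linearIndependent
      rw [coe_basisMonomials] at h1
      exact h1.comp f hf
    have hsp := linearIndependent_le_span' _ hli
      (Set.range fun p : Sym (Fin k) (d * s) × Mon m d N₀ =>
        ((p.1 : Multiset (Fin k)).map P).prod *
          monomial (p.2 : Fin m × Fin (d + 1) →₀ ℕ) (1 : F)) (by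
        rintro _ ⟨b, rfl⟩
        refine mem_span_iter hP hI (d * s) _ ?_
        exact isWeightedHomogeneous_monomial _ _ _ (hfM b))
    rw [Cardinal.mk_fintype, Nat.cast_le] at hsp
    rw [Fintype.card_fun, Fintype.card_fin, Fintype.card_prod, Fintype.card_fin,
      Fintype.card_fin] at hsp
    refine (le_of_eq (by rw [Nat.mul_comm])).trans (hsp.trans ((Fintype.card_range_le _).trans ?_))
    rw [Fintype.card_prod, Sym.card_sym_eq_multichoose, Nat.multichoose_eq, Fintype.card_fin]
  -- the contradiction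
  have hd : 0 < d := by
    rcases Nat.eq_zero_or_pos d with h | h
    · subst h; omega
    · exact h
  set s : ℕ := (d + k) ^ (k - 1) * c₀ with hs
  have h1 := hcount s
  have h2 : (k + d * s - 1).choose (d * s) ≤ ((d + k) * (s + 1)) ^ (k - 1) := by
    have e1 : (k + d * s - 1).choose (d * s) = (k + d * s - 1).choose (k - 1) := by
      rw [← Nat.choose_symm (by omega : d * s ≤ k + d * s - 1)]
      congr 1
      omega
    rw [e1]
    refine (Nat.choose_le_pow _ _).trans (Nat.pow_le_pow_left ?_ _)
    have e2 : (d + k) * (s + 1) = d * s + d + k * s + k := by ring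
    omega
  have h3 : (s + 1) ^ k ≤ (s + 1) ^ (d * m) := Nat.pow_le_pow_right (by omega) hk
  have h4 : (s + 1) ^ k = (s + 1) ^ (k - 1) * (s + 1) := by
    rw [← pow_succ]; congr 1; omega
  have h5 : (s + 1) ^ (k - 1) * (s + 1) ≤ (s + 1) ^ (k - 1) * s := by
    calc (s + 1) ^ (k - 1) * (s + 1) = (s + 1) ^ k := h4.symm
      _ ≤ (s + 1) ^ (d * m) := h3
      _ ≤ (k + d * s - 1).choose (d * s) * c₀ := h1
      _ ≤ ((d + k) * (s + 1)) ^ (k - 1) * c₀ := Nat.mul_le_mul_right _ h2
      _ = (s + 1) ^ (k - 1) * s := by rw [hs, mul_pow]; ring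
  have h6 : s + 1 ≤ s := Nat.le_of_mul_le_mul_left h5 (by positivity)
  omega

end Pool.Agent.Koe
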