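import Mathlib

/-!
# Koe: the upper nil radical of a ring
-/

namespace Pool.Agent.Koe

universe u

variable {S : Type u} [Ring S]

/-- a nil ideal -/
def NilI (I : TwoSidedIdeal S) : Prop := ∀ x ∈ I, IsNilpotent x

theorem add_pow_sub_mem (J : TwoSidedIdeal S) (a b : S) (hb : b ∈ J) (n : ℕ) :
    (a + b) ^ n - a ^ n ∈ J := by
  induction n with
  | zero => simp [J.zero_mem]
  | succ n ih =>
    have e : (a + b) ^ (n + 1) - a ^ (n + 1) = ((a + b) ^ n - a ^ n) * (a + b) + a ^ n * b := by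
      rw [pow_succ, pow_succ]
      noncomm_ring
    rw [e]
    exact J.add_mem (J.mul_mem_right _ _ ih) (J.mul_mem_left _ _ hb)

theorem nilI_sup {I J : TwoSidedIdeal S} (hI : NilI I) (hJ : NilI J) : NilI (I ⊔ J) := by
  intro x hx
  rw [TwoSidedIdeal.mem_sup] at hx
  obtain ⟨a, ha, b, hb, rfl⟩ := hx
  obtain ⟨n, hn⟩ := hI a ha
  have h1 := add_pow_sub_mem J a b hb n
  rw [hn, sub_zero] at h1
  exact (hJ _ h1).of_pow

/-- the upper nil radical -/
def upNil (S : Type u) [Ring S] : TwoSidedIdeal S :=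
  TwoSidedIdeal.mk' {x | ∃ I : TwoSidedIdeal S, NilI I ∧ x ∈ I}
    ⟨⊥, fun x hx => by rw [(TwoSidedIdeal.mem_bot S).1 hx]; exact IsNilpotent.zero, TwoSidedIdeal.zero_mem _⟩
    (by
      rintro x y ⟨I, hI, hx⟩ ⟨J, hJ, hy⟩
      exact ⟨I ⊔ J, nilI_sup hI hJ, TwoSidedIdeal.add_mem _ (TwoSidedIdeal.mem_sup_left hx)
        (TwoSidedIdeal.mem_sup_right hy)⟩)
    (by
      rintro x ⟨I, hI, hx⟩
      exact ⟨I, hI, I.neg_mem hx⟩)
    (by
      rintro x y ⟨I, hI, hy⟩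
      exact ⟨I, hI, I.mul_mem_left _ _ hy⟩)
    (by
      rintro x y ⟨I, hI, hx⟩
      exact ⟨I, hI, I.mul_mem_right _ _ hx⟩)

theorem mem_upNil {x : S} : x ∈ upNil S ↔ ∃ I : TwoSidedIdeal S, NilI I ∧ x ∈ I := by
  rw [upNil, TwoSidedIdeal.mem_mk']
  rfl

theorem nilI_upNil : NilI (upNil S) := by
  intro x hx
  obtain ⟨I, hI, hx⟩ := mem_upNil.1 hx
  exact hI x hx

/-- the quotient by the upper nil radical -/
abbrev QNil (S : Type u) [Ring S] : Type u := (upNil S).ringCon.Quotient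

/-- the projection -/
def prj (S : Type u) [Ring S] : S →+* QNil S := (upNil S).ringCon.mk'

theorem prj_surjective : Function.Surjective (prj S) := RingCon.mk'_surjective _

theorem prj_eq_zero {x : S} : prj S x = 0 ↔ x ∈ upNil S := by
  rw [← map_zero (prj S), prj, RingCon.mk', ]
  exact (RingCon.eq _).trans (TwoSidedIdeal.mem_iff _ _).symm

/-- no nil ideals in the quotient -/
theorem eq_zero_of_nilI {I : TwoSidedIdeal (QNil S)} (hI : NilI I) {x : QNil S} (hx : x ∈ I) :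
    x = 0 := by
  obtain ⟨y, rfl⟩ := prj_surjective x
  rw [prj_eq_zero, mem_upNil]
  refine ⟨TwoSidedIdeal.comap (prj S) I, ?_, (TwoSidedIdeal.mem_comap (prj S)).2 hx⟩
  intro z hz
  obtain ⟨n, hn⟩ := hI _ ((TwoSidedIdeal.mem_comap (prj S)).1 hz)
  rw [← map_pow, prj_eq_zero] at hn
  exact (nilI_upNil _ hn).of_pow

end Pool.Agent.Koe
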