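import Pool.Agent.Koe.Defs
import Pool.Agent.Koe.Mul

/-!
# Koe: the zero word

For a pattern of period `l` with `phi` free positions and a pencil with `k` rows carrying `t`, `k l < d phi`, some compatible word has
transfer matrix `0`: a word `xi` of minimal rank `r > 0` gives for all compatible `eta` a nonzero minor `(I, J)` of `P(xi eta xi)`; as a
polynomial in `t` it has few coefficients, which are multihomogeneous in the free vectors of `eta`, so they have a common zero.
-/

set_option autoImplicit false

namespace Pool.Agent.Koe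

open Polynomial Matrix

variable {ι : Type} [Fintype ι] [DecidableEq ι]

section deg

variable {R : Type} [CommRing R]

/-- all minors have degree at most `n` -/
private def DB (n : ℕ) (P : Matrix ι ι R[X]) : Prop :=
  ∀ (r : ℕ) (I J : Fin r → ι), (P.submatrix I J).det.natDegree ≤ n

omit [Fintype ι] in
private theorem db_one : DB 0 (1 : Matrix ι ι R[X]) := by
  intro r I J
  have h : ((1 : Matrix ι ι R[X]).submatrix I J) = ((1 : Matrix ι ι R).submatrix I J).map (C : R →+* R[X]) := by
    ext i j
    simp only [Matrix.submatrix_apply, Matrix.map_apply, Matrix.one_apply]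
    split_ifs <;> simp
  rw [h]
  have h2 := (RingHom.map_det (C : R →+* R[X]) ((1 : Matrix ι ι R).submatrix I J)).symm
  rw [RingHom.mapMatrix_apply] at h2
  rw [h2, natDegree_C]

omit [DecidableEq ι] in
private theorem db_const_mul {n : ℕ} {P : Matrix ι ι R[X]} (hP : DB n P) (M : Matrix ι ι R) :
    DB n (M.map (C : R →+* R[X]) * P) := by
  intro r I J
  have h : (M.map (C : R →+* R[X]) * P).submatrix I J = Matrix.of fun i => ∑ k : ι, C (M (I i) k) • (fun j => P k (J j)) := by
    ext i j
    simp [Matrix.mul_apply, Finset.sum_apply]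
  have h2 : ((M.map (C : R →+* R[X]) * P).submatrix I J).det =
      ∑ f : Fin r → ι, (∏ i, C (M (I i) (f i))) * (P.submatrix f J).det := by
    rw [h]
    have h3 := (Matrix.detRowAlternating (R := R[X]) (n := Fin r)).toMultilinearMap.map_sum
      (fun (i : Fin r) (k : ι) => C (M (I i) k) • (fun j => P k (J j)))
    have h4 : (Matrix.of fun i => ∑ k : ι, C (M (I i) k) • (fun j : Fin r => P k (J j))).det =
      (Matrix.detRowAlternating (R := R[X]) (n := Fin r)).toMultilinearMap (fun i => ∑ k : ι, C (M (I i) k) • (fun j => P k (J j))) := rfl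
    rw [h4, h3]
    refine Finset.sum_congr rfl fun f _ => ?_
    rw [MultilinearMap.map_smul_univ, smul_eq_mul]
    rfl
  rw [h2]
  refine natDegree_sum_le_of_forall_le _ _ fun f _ => ?_
  refine (natDegree_mul_le).trans ?_
  rw [← map_prod, natDegree_C, zero_add]
  exact hP r f J

private theorem db_dt_mul {n : ℕ} {P : Matrix ι ι R[X]} (hP : DB n P) (T : Finset ι) :
    DB (T.card + n) (dt T * P) := by
  intro r I J
  by_cases hI : Function.Injective I
  · have h : (dt T * P).submatrix I J = Matrix.of fun i j => (if I i ∈ T then (X : R[X]) else 1) * (P.submatrix I J) i j := by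
      ext i j
      simp [dt, Matrix.diagonal_mul]
    rw [h, Matrix.det_mul_column (fun i => if I i ∈ T then (X : R[X]) else 1) (P.submatrix I J)]
    refine natDegree_mul_le.trans (Nat.add_le_add ?_ (hP r I J))
    rw [Finset.prod_ite, Finset.prod_const_one, mul_one, Finset.prod_const]
    refine (natDegree_X_pow_le _).trans ?_
    rw [← Finset.card_image_of_injective _ hI]
    refine Finset.card_le_card ?_
    intro x hx
    simp only [Finset.mem_image, Finset.mem_filter, Finset.mem_univ, true_and] at hx
    obtain ⟨a, ha, rfl⟩ := hx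
    exact ha
  · simp only [Function.Injective, not_forall] at hI
    obtain ⟨a, b, hab, hne⟩ := hI
    rw [Matrix.det_zero_of_row_eq hne]
    · simp
    · ext j
      simp [hab]

private theorem db_tm {Y : Type} [Fintype Y] {n : ℕ} {P : Matrix ι ι R[X]} (hP : DB n P) (T : Finset ι)
    (M : Y → Matrix ι ι R) (v : Y → R) : DB (T.card + n) (tm T M v * P) := by
  rw [tm, Matrix.mul_assoc]
  exact db_dt_mul (db_const_mul hP _) T

private theorem db_prod {Y : Type} [Fintype Y] (T : Finset ι)
    (M : Y → Matrix ι ι R) (l : List (Y → R)) : DB (l.length * T.card) (l.map (tm T M)).prod := by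
  induction l with
  | nil => simpa using db_one
  | cons v l ih =>
    rw [List.map_cons, List.prod_cons, List.length_cons, Nat.add_mul, one_mul, Nat.add_comm]
    exact db_tm ih T M v

end deg

section wh

variable {F σ : Type} [Field F] {m : ℕ}

/-- all coefficients are weighted homogeneous -/
private def WH (wt : σ → (Fin m → ℕ)) (w : Fin m → ℕ) (p : (MvPolynomial σ F)[X]) : Prop :=
  ∀ n, (p.coeff n).IsWeightedHomogeneous wt w

private theorem wh_sum {wt : σ → (Fin m → ℕ)} {w : Fin m → ℕ} {α : Type*} (s : Finset α)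
    (f : α → (MvPolynomial σ F)[X]) (hf : ∀ a ∈ s, WH wt w (f a)) : WH wt w (∑ a ∈ s, f a) := by
  intro n
  rw [finsetSum_coeff]
  exact MvPolynomial.IsWeightedHomogeneous.sum s _ w fun a ha => hf a ha n

private theorem wh_mul {wt : σ → (Fin m → ℕ)} {w w' : Fin m → ℕ} {p q : (MvPolynomial σ F)[X]}
    (hp : WH wt w p) (hq : WH wt w' q) : WH wt (w + w') (p * q) := by
  intro n
  rw [coeff_mul]
  exact MvPolynomial.IsWeightedHomogeneous.sum _ _ _ fun a _ => (hp _).mul (hq _)

private theorem wh_C {wt : σ → (Fin m → ℕ)} {w : Fin m → ℕ} {p : MvPolynomial σ F}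
    (hp : p.IsWeightedHomogeneous wt w) : WH wt w (C p) := by
  intro n
  rw [coeff_C]
  split_ifs
  · exact hp
  · exact MvPolynomial.isWeightedHomogeneous_zero _ _ _

private theorem wh_X {wt : σ → (Fin m → ℕ)} : WH wt 0 (X : (MvPolynomial σ F)[X]) := by
  intro n
  rw [coeff_X]
  split_ifs
  · exact MvPolynomial.isWeightedHomogeneous_one _ _
  · exact MvPolynomial.isWeightedHomogeneous_zero _ _ _

private theorem wh_one {wt : σ → (Fin m → ℕ)} : WH wt 0 (1 : (MvPolynomial σ F)[X]) := by
  rw [← C_1]
  exact wh_C (MvPolynomial.isWeightedHomogeneous_one _ _)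

private theorem wh_zero {wt : σ → (Fin m → ℕ)} {w : Fin m → ℕ} : WH wt w (0 : (MvPolynomial σ F)[X]) := by
  intro n
  rw [coeff_zero]
  exact MvPolynomial.isWeightedHomogeneous_zero _ _ _

private theorem wh_prod {wt : σ → (Fin m → ℕ)} {w : Fin m → ℕ} {α : Type*} (s : Finset α)
    (f : α → (MvPolynomial σ F)[X]) (hf : ∀ a ∈ s, WH wt w (f a)) : WH wt (s.card • w) (∏ a ∈ s, f a) := by
  classical
  induction s using Finset.induction_on with
  | empty => simpa using wh_one
  | insert a s ha ih =>
    rw [Finset.prod_insert ha, Finset.card_insert_of_notMem ha, add_smul, one_smul, add_comm]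
    exact wh_mul (hf a (Finset.mem_insert_self _ _)) (ih fun b hb => hf b (Finset.mem_insert_of_mem hb))

private theorem wh_det {wt : σ → (Fin m → ℕ)} {w : Fin m → ℕ} {r : ℕ} (A : Matrix (Fin r) (Fin r) (MvPolynomial σ F)[X])
    (hA : ∀ i j, WH wt w (A i j)) : WH wt (r • w) A.det := by
  rw [Matrix.det_apply']
  refine wh_sum _ _ fun s _ => ?_
  have h1 : WH wt 0 (((Equiv.Perm.sign s : ℤ) : (MvPolynomial σ F)[X])) := by
    have h2 : ((Equiv.Perm.sign s : ℤ) : (MvPolynomial σ F)[X]) = C (MvPolynomial.C (((Equiv.Perm.sign s : ℤ) : F))) := by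
      simp
    rw [h2]
    exact wh_C (MvPolynomial.isWeightedHomogeneous_C _ _)
  have h3 := wh_prod (wt := wt) (w := w) (Finset.univ : Finset (Fin r)) (fun i => A (s i) i) fun i _ => hA _ _
  rw [Finset.card_univ, Fintype.card_fin] at h3
  simpa using wh_mul h1 h3

private def MWH (wt : σ → (Fin m → ℕ)) (w : Fin m → ℕ) (P : Matrix ι ι (MvPolynomial σ F)[X]) : Prop :=
  ∀ i j, WH wt w (P i j)

omit [DecidableEq ι] in
private theorem mwh_mul {wt : σ → (Fin m → ℕ)} {w w' : Fin m → ℕ} {P Q : Matrix ι ι (MvPolynomial σ F)[X]}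
    (hP : MWH wt w P) (hQ : MWH wt w' Q) : MWH wt (w + w') (P * Q) := by
  intro i j
  rw [Matrix.mul_apply]
  exact wh_sum _ _ fun k _ => wh_mul (hP _ _) (hQ _ _)

omit [Fintype ι] in
private theorem mwh_one {wt : σ → (Fin m → ℕ)} : MWH wt 0 (1 : Matrix ι ι (MvPolynomial σ F)[X]) := by
  intro i j
  rw [Matrix.one_apply]
  split_ifs
  · exact wh_one
  · exact wh_zero

omit [Fintype ι] in
private theorem mwh_dt {wt : σ → (Fin m → ℕ)} (T : Finset ι) : MWH wt 0 (dt T : Matrix ι ι (MvPolynomial σ F)[X]) := by
  intro i j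
  rw [dt, Matrix.diagonal_apply]
  split_ifs
  · exact wh_X
  · exact wh_one
  · exact wh_zero

private theorem mwh_tm {wt : σ → (Fin m → ℕ)} {w : Fin m → ℕ} {Y : Type} [Fintype Y] (T : Finset ι)
    (M : Y → Matrix ι ι F) (v : Y → MvPolynomial σ F) (hv : ∀ y, (v y).IsWeightedHomogeneous wt w) :
    MWH wt w (tm T (fun y => (M y).map (MvPolynomial.C (σ := σ))) v) := by
  rw [tm, ← zero_add w]
  refine mwh_mul (mwh_dt T) ?_
  intro i j
  rw [Matrix.map_apply]
  refine wh_C ?_
  rw [Matrix.sum_apply]
  refine MvPolynomial.IsWeightedHomogeneous.sum _ _ _ fun y _ => ?_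
  rw [Matrix.smul_apply, smul_eq_mul, Matrix.map_apply]
  have h := (hv y).mul (MvPolynomial.isWeightedHomogeneous_C wt (M y i j))
  rwa [add_zero] at h

private theorem mwh_list {wt : σ → (Fin m → ℕ)} (l : List ((Fin m → ℕ) × Matrix ι ι (MvPolynomial σ F)[X]))
    (hl : ∀ a ∈ l, MWH wt a.1 a.2) : MWH wt (l.map Prod.fst).sum (l.map Prod.snd).prod := by
  induction l with
  | nil => simpa using mwh_one
  | cons a l ih =>
    rw [List.map_cons, List.sum_cons, List.map_cons, List.prod_cons]
    exact mwh_mul (hl a (by simp)) (ih fun b hb => hl b (by simp [hb]))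

end wh

section minors

/-- all minors of size `n` vanish -/
private def Van {R : Type*} [CommRing R] (n : ℕ) (P : Matrix ι ι R) : Prop :=
  ∀ (I J : Fin n → ι), (P.submatrix I J).det = 0

omit [DecidableEq ι] in
private theorem van_card {R : Type*} [CommRing R] (P : Matrix ι ι R) : Van (Fintype.card ι + 1) P := by
  intro I J
  have hI : ¬ Function.Injective I := by
    intro h
    have := Fintype.card_le_of_injective I h
    simp at this
  simp only [Function.Injective, not_forall] at hI
  obtain ⟨a, b, hab, hne⟩ := hI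
  exact Matrix.det_zero_of_row_eq hne (by ext j; simp [hab])

omit [Fintype ι] [DecidableEq ι] in
private theorem cur {K : Type*} [Field K] {r : ℕ} {M : Matrix ι ι K} (hM : Van (r + 1) M) (I J : Fin r → ι)
    (hIJ : (M.submatrix I J).det ≠ 0) :
    M = M.submatrix id J * (M.submatrix I J)⁻¹ * M.submatrix I id := by
  have hu : IsUnit (M.submatrix I J).det := isUnit_iff_ne_zero.2 hIJ
  have : Invertible (M.submatrix I J) := Matrix.invertibleOfIsUnitDet _ hu
  ext i j
  have h1 := Matrix.det_fromBlocks₁₁ (M.submatrix I J) (M.submatrix I (fun _ : Unit => j))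
    (M.submatrix (fun _ : Unit => i) J) (M.submatrix (fun _ : Unit => i) (fun _ : Unit => j))
  have h2 : (Matrix.fromBlocks (M.submatrix I J) (M.submatrix I (fun _ : Unit => j))
    (M.submatrix (fun _ : Unit => i) J) (M.submatrix (fun _ : Unit => i) (fun _ : Unit => j))) =
    M.submatrix (Sum.elim I fun _ : Unit => i) (Sum.elim J fun _ : Unit => j) := by
    ext a b
    rcases a with a | a <;> rcases b with b | b <;> rfl
  have e : Fin (r + 1) ≃ Fin r ⊕ Unit := Fintype.equivOfCardEq (by simp)
  have h3 : (M.submatrix (Sum.elim I fun _ : Unit => i) (Sum.elim J fun _ : Unit => j)).det = 0 := by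
    rw [← Matrix.det_submatrix_equiv_self e, Matrix.submatrix_submatrix]
    exact hM _ _
  rw [h2, h3] at h1
  have h4 := (mul_eq_zero.1 h1.symm).resolve_left hIJ
  rw [Matrix.det_unique, Matrix.sub_apply, sub_eq_zero, Matrix.invOf_eq_nonsing_inv] at h4
  rw [Matrix.submatrix_apply] at h4
  rw [h4]
  simp only [Matrix.mul_apply, Matrix.submatrix_apply, id]

omit [DecidableEq ι] in
private theorem minor_field {K : Type*} [Field K] {r : ℕ} {M N : Matrix ι ι K} (hM : Van (r + 1) M) (I J : Fin r → ι)
    (hIJ : (M.submatrix I J).det ≠ 0) (hN : ¬ Van r (M * N * M)) :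
    ((M * N * M).submatrix I J).det ≠ 0 := by
  intro h0
  refine hN fun I' J' => ?_
  have hc := cur hM I J hIJ
  set W := (M.submatrix I J)⁻¹ with hW
  have h1 : (M * N * M).submatrix I J = M.submatrix I id * N * M.submatrix id J := by
    ext a b
    simp only [Matrix.mul_apply, Matrix.submatrix_apply, id]
  have h2 : M * N * M = M.submatrix id J * (W * ((M * N * M).submatrix I J) * W) * M.submatrix I id := by
    rw [h1]
    conv_lhs => rw [hc]
    simp only [Matrix.mul_assoc]
  have h3 : (M * N * M).submatrix I' J' =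
      M.submatrix I' J * (W * ((M * N * M).submatrix I J) * W) * M.submatrix I J' := by
    conv_lhs => rw [h2]
    ext a b
    simp only [Matrix.mul_apply, Matrix.submatrix_apply, id]
  rw [h3, Matrix.det_mul, Matrix.det_mul, Matrix.det_mul, Matrix.det_mul, h0]
  simp

omit [DecidableEq ι] in
private theorem minor_dom {R : Type*} [CommRing R] [IsDomain R] {r : ℕ} {M N : Matrix ι ι R} (hM : Van (r + 1) M)
    (I J : Fin r → ι) (hIJ : (M.submatrix I J).det ≠ 0) (hN : ¬ Van r (M * N * M)) :
    ((M * N * M).submatrix I J).det ≠ 0 := by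
  have hinj : Function.Injective (algebraMap R (FractionRing R)) := IsFractionRing.injective R (FractionRing R)
  have hd : ∀ (n : ℕ) (P : Matrix ι ι R) (I J : Fin n → ι),
      ((P.map (algebraMap R (FractionRing R))).submatrix I J).det = algebraMap R (FractionRing R) ((P.submatrix I J).det) := by
    intro n P I J
    rw [RingHom.map_det]
    rfl
  have hmul : (M * N * M).map (algebraMap R (FractionRing R)) =
      M.map (algebraMap R (FractionRing R)) * N.map (algebraMap R (FractionRing R)) * M.map (algebraMap R (FractionRing R)) := by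
    rw [Matrix.map_mul, Matrix.map_mul]
  have h := minor_field (M := M.map (algebraMap R (FractionRing R))) (N := N.map (algebraMap R (FractionRing R)))
    (r := r) (fun I J => by rw [hd, hM, map_zero]) I J
    (by rw [hd]; exact fun h => hIJ (hinj (by rw [h, map_zero])))
    (by
      intro h
      refine hN fun I' J' => ?_
      have h5 := h I' J'
      rw [← hmul, hd] at h5
      exact hinj (by rw [h5, map_zero]))
  rw [← hmul, hd] at h
  exact fun h0 => h (by rw [h0, map_zero])

end minors

section main

variable {F : Type} [Field F] [IsAlgClosed F] {d : ℕ}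

private theorem compat_append {V : Type} [Zero V] {p q : List (Option V)} {w z : List V} (h : Compat p w) (h' : Compat q z) :
    Compat (p ++ q) (w ++ z) := List.rel_append h h'

private theorem rep_add {V : Type*} (a b : ℕ) (p : List V) :
    (List.replicate (a + b) p).flatten = (List.replicate a p).flatten ++ (List.replicate b p).flatten := by
  rw [List.replicate_add, List.flatten_append]

private theorem compat_length {V : Type} [Zero V] {p : List (Option V)} {w : List V} (h : Compat p w) :
    w.length = p.length := (List.Forall₂.length_eq h).symm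

private theorem countP_card {α : Type*} (q : List α) (P : α → Bool) :
    Fintype.card {j : Fin q.length // P (q.get j) = true} = q.countP P := by
  have h1 : q.countP P = ((List.finRange q.length).map q.get).countP P := by
    rw [← List.ofFn_eq_map, List.ofFn_get]
  rw [h1, List.countP_map, Fintype.card_subtype, List.countP_eq_length_filter, Finset.card_def,
    Finset.filter_val, Fin.univ_def, Multiset.filter_coe, Multiset.coe_card]
  congr 1
  apply List.filter_congr
  intro x _
  simp

/-- the generic vector -/
private noncomputable def gv (q : List (Option (Fin (d + 1) → F))) {m : ℕ}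
    (e : {j : Fin q.length // (q.get j).isNone = true} ≃ Fin m) (j : Fin q.length) :
    Fin (d + 1) → MvPolynomial (Fin m × Fin (d + 1)) F :=
  if h : (q.get j).isNone = true then fun y => MvPolynomial.X (e ⟨j, h⟩, y)
  else fun y => MvPolynomial.C ((q.get j).getD 0 y)

/-- the weight -/
private noncomputable def gw (q : List (Option (Fin (d + 1) → F))) {m : ℕ}
    (e : {j : Fin q.length // (q.get j).isNone = true} ≃ Fin m) (j : Fin q.length) : Fin m → ℕ :=
  if h : (q.get j).isNone = true then Pi.single (e ⟨j, h⟩) 1 else 0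

omit [Field F] [IsAlgClosed F] in
private theorem gw_sum (q : List (Option (Fin (d + 1) → F))) {m : ℕ}
    (e : {j : Fin q.length // (q.get j).isNone = true} ≃ Fin m) : ∑ j, gw q e j = fun _ => 1 := by
  funext i
  rw [Finset.sum_apply, Finset.sum_eq_single (e.symm i).1]
  · have h := (e.symm i).2
    rw [gw, dif_pos h]
    have h2 : e ⟨(e.symm i).1, h⟩ = i := by
      rw [Subtype.coe_eta, Equiv.apply_symm_apply]
    rw [h2, Pi.single_eq_same]
  · intro j _ hj
    rw [gw]
    split_ifs with h
    · rw [Pi.single_eq_of_ne]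
      intro h2
      apply hj
      rw [h2, Equiv.symm_apply_apply]
    · rfl
  · intro h
    exact absurd (Finset.mem_univ _) h

omit [IsAlgClosed F] in
private theorem gv_wh (q : List (Option (Fin (d + 1) → F))) {m : ℕ}
    (e : {j : Fin q.length // (q.get j).isNone = true} ≃ Fin m) (j : Fin q.length) (y : Fin (d + 1)) :
    (gv q e j y).IsWeightedHomogeneous (fun p => (Pi.single p.1 1 : Fin m → ℕ)) (gw q e j) := by
  rw [gv, gw]
  split_ifs with h
  · exact MvPolynomial.isWeightedHomogeneous_X _ _ _
  · exact MvPolynomial.isWeightedHomogeneous_C _ _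

private theorem tm_map {R S Y : Type} [CommRing R] [CommRing S] [Fintype Y] (φ : R →+* S) (T : Finset ι)
    (M : Y → Matrix ι ι R) (v : Y → R) :
    (tm T M v).map (mapRingHom φ) = tm T (fun y => (M y).map φ) (fun y => φ (v y)) := by
  rw [tm, tm, Matrix.map_mul]
  congr 1
  · ext i j : 2
    rw [Matrix.map_apply, dt, dt, Matrix.diagonal_apply, Matrix.diagonal_apply]
    split_ifs <;> simp
  · ext i j : 2
    rw [Matrix.map_apply, Matrix.map_apply, Matrix.map_apply, Matrix.sum_apply, Matrix.sum_apply,
      coe_mapRingHom, map_C, map_sum]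
    simp

private theorem prod_map {R S Y : Type} [CommRing R] [CommRing S] [Fintype Y] (φ : R →+* S) (T : Finset ι)
    (M : Y → Matrix ι ι R) (l : List (Y → R)) :
    ((l.map (tm T M)).prod).map (mapRingHom φ) =
      ((l.map fun v y => φ (v y)).map (tm T (fun y => (M y).map φ))).prod := by
  induction l with
  | nil =>
    simp only [List.map_nil, List.prod_nil]
    exact Matrix.map_one _ (map_zero _) (map_one _)
  | cons v l ih =>
    rw [List.map_cons, List.prod_cons, List.map_cons, List.map_cons, List.prod_cons, Matrix.map_mul,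
      tm_map, ih]

/-- for every long pattern the generic minor has a zero -/
private theorem minor_zero (T : Finset ι) (M : Fin (d + 1) → Matrix ι ι F)
    (q : List (Option (Fin (d + 1) → F))) (hnz : ∀ v, some v ∈ q → v ≠ 0) (ξ : List (Fin (d + 1) → F))
    (hq : (2 * ξ.length + q.length) * T.card + 1 ≤ d * q.countP Option.isNone)
    {r : ℕ} (hr : 0 < r) (I J : Fin r → ι) :
    ∃ η : List (Fin (d + 1) → F), Compat q η ∧
      ((((ξ.map (tm T M)).prod * (η.map (tm T M)).prod * (ξ.map (tm T M)).prod)).submatrix I J).det = 0 := by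
  classical
  set m := q.countP Option.isNone with hm
  have e : {j : Fin q.length // (q.get j).isNone = true} ≃ Fin m :=
    Fintype.equivOfCardEq (by rw [countP_card, Fintype.card_fin])
  set wt : Fin m × Fin (d + 1) → (Fin m → ℕ) := fun p => (Pi.single p.1 1 : Fin m → ℕ) with hwt
  set MC : Fin (d + 1) → Matrix ι ι (MvPolynomial (Fin m × Fin (d + 1)) F) :=
    fun y => (M y).map MvPolynomial.C with hMC
  set cv : (Fin (d + 1) → F) → (Fin (d + 1) → MvPolynomial (Fin m × Fin (d + 1)) F) :=
    fun v y => MvPolynomial.C (v y) with hcv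
  set Ga : List (Fin (d + 1) → MvPolynomial (Fin m × Fin (d + 1)) F) := ξ.map cv with hGa
  set Gb : List (Fin (d + 1) → MvPolynomial (Fin m × Fin (d + 1)) F) := List.ofFn (gv q e) with hGb
  set PP := (((Ga ++ Gb ++ Ga).map (tm T MC)).prod) with hPP
  set D := (PP.submatrix I J).det with hD
  have hdeg : D.natDegree ≤ (2 * ξ.length + q.length) * T.card := by
    have h1 := db_prod T MC (Ga ++ Gb ++ Ga) r I J
    refine h1.trans (le_of_eq ?_)
    rw [List.length_append, List.length_append, hGa, hGb, List.length_map, List.length_ofFn]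
    ring
  have hwa : MWH wt 0 (Ga.map (tm T MC)).prod := by
    have h1 := mwh_list (wt := wt) (ξ.map fun v => ((0 : Fin m → ℕ), tm T MC (cv v))) (by
      intro a ha
      rw [List.mem_map] at ha
      obtain ⟨v, -, rfl⟩ := ha
      exact mwh_tm T M _ fun y => MvPolynomial.isWeightedHomogeneous_C _ _)
    rw [List.map_map, List.map_map] at h1
    have h2 : (ξ.map (Prod.fst ∘ fun v => ((0 : Fin m → ℕ), tm T MC (cv v)))).sum = 0 := by
      have h3 : (Prod.fst ∘ fun v => ((0 : Fin m → ℕ), tm T MC (cv v))) = fun _ => 0 := rfl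
      rw [h3]
      simp
    rw [h2] at h1
    have h4 : (Prod.snd ∘ fun v => ((0 : Fin m → ℕ), tm T MC (cv v))) = (tm T MC) ∘ cv := rfl
    rw [h4, ← List.map_map] at h1
    exact h1
  have hwb : MWH wt (fun _ => 1) (Gb.map (tm T MC)).prod := by
    have h1 := mwh_list (wt := wt) (List.ofFn fun j => (gw q e j, tm T MC (gv q e j))) (by
      intro a ha
      rw [List.mem_ofFn] at ha
      obtain ⟨j, rfl⟩ := ha
      exact mwh_tm T M _ fun y => gv_wh q e j y)
    rw [List.map_ofFn, List.map_ofFn, List.sum_ofFn] at h1
    have h2 : ∑ j, (Prod.fst ∘ fun j => (gw q e j, tm T MC (gv q e j))) j = fun _ => 1 := gw_sum q e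
    rw [h2] at h1
    have h4 : (Prod.snd ∘ fun j => (gw q e j, tm T MC (gv q e j))) = (tm T MC) ∘ gv q e := rfl
    rw [h4, ← List.map_ofFn] at h1
    exact h1
  have hw : MWH wt (fun _ => 1) PP := by
    have h1 := mwh_mul (mwh_mul hwa hwb) hwa
    rw [hPP, List.map_append, List.map_append, List.prod_append, List.prod_append]
    simpa using h1
  have hDw : WH wt (fun _ => r) D := by
    have h1 := wh_det (PP.submatrix I J) fun i j => hw (I i) (J j)
    have h2 : r • (fun _ : Fin m => 1) = fun _ => r := by
      funext i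
      simp
    rwa [h2] at h1
  obtain ⟨x, hx0, hx⟩ := common_zero (d := d) hq hr (fun l => D.coeff l) fun l => hDw l
  set φ : MvPolynomial (Fin m × Fin (d + 1)) F →+* F := MvPolynomial.eval fun p => x p.1 p.2 with hφ
  have hD0 : D.map φ = 0 := by
    ext n
    rw [coeff_map, coeff_zero]
    by_cases hn : n < (2 * ξ.length + q.length) * T.card + 1
    · exact hx ⟨n, hn⟩
    · rw [coeff_eq_zero_of_natDegree_lt (by omega), map_zero]
  refine ⟨Gb.map fun v y => φ (v y), ?_, ?_⟩
  · rw [Compat, List.forall₂_iff_get]
    refine ⟨by simp [hGb], ?_⟩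
    intro i h1 h2
    have h3 : (Gb.map fun v y => φ (v y)).get ⟨i, h2⟩ = fun y => φ (gv q e ⟨i, h1⟩ y) := by
      simp [hGb]
    rw [h3]
    by_cases hn : (q.get ⟨i, h1⟩).isNone = true
    · have h4 : (fun y => φ (gv q e ⟨i, h1⟩ y)) = x (e ⟨⟨i, h1⟩, hn⟩) := by
        funext y
        rw [gv, dif_pos hn, hφ, MvPolynomial.eval_X]
      rw [h4]
      refine ⟨hx0 _, ?_⟩
      intro u hu
      rw [hu] at hn
      simp at hn
    · have h4 : (fun y => φ (gv q e ⟨i, h1⟩ y)) = (q.get ⟨i, h1⟩).getD 0 := by
        funext y
        rw [gv, dif_neg hn, hφ, MvPolynomial.eval_C]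
      rw [h4]
      obtain ⟨v, hv⟩ : ∃ v, q.get ⟨i, h1⟩ = some v := by
        rw [Bool.not_eq_true, Option.isNone_eq_false_iff, Option.isSome_iff_exists] at hn
        exact hn
      rw [hv, Option.getD_some]
      refine ⟨hnz v (hv ▸ List.get_mem q ⟨i, h1⟩), ?_⟩
      intro u hu
      exact Option.some_injective _ hu
  · have h1 := prod_map φ T MC (Ga ++ Gb ++ Ga)
    have h2 : (fun y => (MC y).map φ) = M := by
      funext y
      ext i j
      simp [hMC, hφ]
    have h3 : (Ga ++ Gb ++ Ga).map (fun v y => φ (v y)) = ξ ++ (Gb.map fun v y => φ (v y)) ++ ξ := by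
      rw [List.map_append, List.map_append, hGa, List.map_map]
      have h4 : ((fun (v : Fin (d + 1) → MvPolynomial (Fin m × Fin (d + 1)) F) y => φ (v y)) ∘ cv) = id := by
        funext v y
        simp [hcv, hφ]
      rw [h4, List.map_id]
    rw [h2, h3] at h1
    have h7 : (ξ.map (tm T M)).prod * ((Gb.map fun v y => φ (v y)).map (tm T M)).prod * (ξ.map (tm T M)).prod =
        ((ξ ++ (Gb.map fun v y => φ (v y)) ++ ξ).map (tm T M)).prod := by
      rw [List.map_append, List.map_append, List.prod_append, List.prod_append]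
    rw [h7, ← h1]
    have h5 : (((((Ga ++ Gb ++ Ga).map (tm T MC)).prod).map (mapRingHom φ)).submatrix I J).det = D.map φ := by
      have h6 := RingHom.map_det (mapRingHom φ) (PP.submatrix I J)
      rw [RingHom.mapMatrix_apply] at h6
      rw [hD]
      exact h6.symm
    rw [h5, hD0]

/-- **The zero word.** -/
theorem zero_word (T : Finset ι) (M : Fin (d + 1) → Matrix ι ι F)
    (p : List (Option (Fin (d + 1) → F))) (hnz : ∀ v, some v ∈ p → v ≠ 0)
    (hp : T.card * p.length < d * p.countP Option.isNone) :
    ∃ c, 0 < c ∧ ∃ w, Compat (List.replicate c p).flatten w ∧ (w.map (tm T M)).prod = 0 := by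
  classical
  have hmem : ∀ c v, some v ∈ (List.replicate c p).flatten → v ≠ 0 := by
    intro c v hv
    rw [List.mem_flatten] at hv
    obtain ⟨l, hl, hv⟩ := hv
    rw [List.eq_of_mem_replicate hl] at hv
    exact hnz v hv
  have hlen : ∀ c, (List.replicate c p).flatten.length = c * p.length := by
    intro c
    simp
  have hcnt : ∀ c, (List.replicate c p).flatten.countP Option.isNone = c * p.countP Option.isNone := by
    intro c
    induction c with
    | zero => simp
    | succ c ih => rw [List.replicate_succ, List.flatten_cons, List.countP_append, ih]; ring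
  have hex : ∃ n, ∃ c, 0 < c ∧ ∃ w, Compat (List.replicate c p).flatten w ∧ Van (n + 1) (w.map (tm T M)).prod := by
    refine ⟨Fintype.card ι, 1, one_pos, (List.replicate 1 p).flatten.map fun o => o.getD (fun _ => 1), ?_, van_card _⟩
    rw [Compat, List.forall₂_map_right_iff, List.forall₂_same]
    intro o ho
    rcases o with _ | v
    · refine ⟨?_, ?_⟩
      · rw [Option.getD_none]
        intro h
        have := congrFun h 0
        simp at this
      · intro u hu
        exact absurd hu (by simp)
    · refine ⟨?_, ?_⟩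
      · rw [Option.getD_some]
        exact hmem 1 v ho
      · intro u hu
        rw [Option.getD_some]
        exact Option.some_injective _ hu
  obtain ⟨c, hc, ξ, hξ, hV⟩ := Nat.find_spec hex
  rcases Nat.eq_zero_or_pos (Nat.find hex) with h0 | hpos
  · refine ⟨c, hc, ξ, hξ, ?_⟩
    rw [h0] at hV
    ext1 i j
    have := hV (fun _ => i) (fun _ => j)
    rw [Matrix.det_fin_one] at this
    simpa using this
  · exfalso
    set r := Nat.find hex with hr
    have hmin : ∀ c', 0 < c' → ∀ w, Compat (List.replicate c' p).flatten w → ¬ Van r (w.map (tm T M)).prod := by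
      intro c' hc' w hw hv
      refine Nat.find_min hex (m := r - 1) (by omega) ⟨c', hc', w, hw, ?_⟩
      rwa [Nat.sub_add_cancel hpos]
    have h1 := hmin c hc ξ hξ
    simp only [Van, not_forall] at h1
    obtain ⟨I, J, hIJ⟩ := h1
    obtain ⟨η, hη, hη0⟩ := minor_zero T M (List.replicate (2 * ξ.length * T.card + 1) p).flatten (hmem _) ξ (by
      rw [hlen, hcnt]
      have h2 : (2 * ξ.length * T.card + 1) * (T.card * p.length + 1) ≤
        (2 * ξ.length * T.card + 1) * (d * p.countP Option.isNone) := Nat.mul_le_mul_left _ hp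
      nlinarith [h2]) hpos I J
    refine minor_dom (N := (η.map (tm T M)).prod) hV I J hIJ ?_ hη0
    have h3 := compat_append (compat_append hξ hη) hξ
    rw [← rep_add, ← rep_add] at h3
    have h4 := hmin _ (by omega) _ h3
    rw [List.map_append, List.map_append, List.prod_append, List.prod_append] at h4
    exact h4

end main

end Pool.Agent.Koe
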