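import Mathlib
import Pool.Agent.Koe.Word
import Pool.Agent.Koe.Zero

/-!
# Koe: the sequence

A sequence of nonzero vectors such that all `k × k` matrices over the augmentation ideal of the free algebra act nilpotently, `k < d`.
It is the limit of a sequence of finer and finer periodic patterns (a Toeplitz sequence).
-/

namespace Pool.Agent.Koe

section pattern

variable {V : Type}

/-- the value prescribed at the place `i` by the periodic pattern `p` -/
def At (p : List (Option V)) (i : ℕ) (v : V) : Prop := p[i % p.length]? = some (some v)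

theorem flatten_replicate_get {A : Type} (p : List A) (n j : ℕ) (hj : j < n * p.length) :
    (List.replicate n p).flatten[j]? = p[j % p.length]? := by
  induction n generalizing j with
  | zero => simp at hj
  | succ n ih =>
    rw [List.replicate_succ, List.flatten_cons]
    by_cases h : j < p.length
    · rw [List.getElem?_append_left h, Nat.mod_eq_of_lt h]
    · rw [not_lt] at h
      rw [List.getElem?_append_right h, ih _ (by rw [Nat.succ_mul] at hj; omega),
        Nat.mod_eq_sub_mod h]

theorem flatten_replicate_length {A : Type} (p : List A) (n : ℕ) :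
    (List.replicate n p).flatten.length = n * p.length := by
  simp

theorem compat_length {V : Type} [Zero V] {p : List (Option V)} {w : List V} (h : Compat p w) :
    w.length = p.length := (List.Forall₂.length_eq h).symm

theorem compat_get {V : Type} [Zero V] {p : List (Option V)} {w : List V} (h : Compat p w) {j : ℕ}
    {v : V} (hj : p[j]? = some (some v)) : w[j]? = some v := by
  induction h generalizing j with
  | nil => simp at hj
  | cons h1 _ ih =>
    rcases j with _ | j
    · rw [List.getElem?_cons_zero, Option.some_inj] at hj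
      rw [List.getElem?_cons_zero, h1.2 v hj]
    · rw [List.getElem?_cons_succ] at hj ⊢
      exact ih hj

theorem compat_ne {V : Type} [Zero V] {p : List (Option V)} {w : List V} (h : Compat p w) {v : V}
    (hv : v ∈ w) : v ≠ 0 := by
  induction h with
  | nil => simp at hv
  | cons h1 _ ih =>
    rcases List.mem_cons.1 hv with rfl | h2
    · exact h1.1
    · exact ih h2

/-- good patterns -/
structure Good [Zero V] (d k : ℕ) (p : List (Option V)) : Prop where
  ne : ∀ v, some v ∈ p → v ≠ 0
  many : k * p.length < d * p.countP Option.isNone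

theorem Good.pos [Zero V] {d k : ℕ} {p : List (Option V)} (h : Good d k p) : 0 < p.length := by
  rcases Nat.eq_zero_or_pos p.length with h0 | h0
  · have h1 := h.many
    have h2 := List.countP_le_length (p := Option.isNone) (l := p)
    rw [h0] at h1 h2
    simp only [Nat.mul_zero, Nat.le_zero] at h1 h2
    rw [h2] at h1
    simp at h1
  · exact h0

end pattern

section

variable {F : Type} [Field F]

theorem win_zero {ι β : Type} [Fintype ι] [DecidableEq ι] [Fintype β]
    (T : Finset ι) (M : β → Matrix ι ι F) (f : ℕ → β → F) (i : ℕ) : win T M f i 0 = 1 := by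
  simp [win]

theorem win_add {ι β : Type} [Fintype ι] [DecidableEq ι] [Fintype β]
    (T : Finset ι) (M : β → Matrix ι ι F) (f : ℕ → β → F) (i a b : ℕ) :
    win T M f i (a + b) = win T M f i a * win T M f (i + a) b := by
  induction b with
  | zero => rw [win_zero, mul_one, add_zero]
  | succ b ih => rw [← add_assoc, win_succ, win_succ, ih, mul_assoc, add_assoc]

theorem win_word {ι β : Type} [Fintype ι] [DecidableEq ι] [Fintype β]
    (T : Finset ι) (M : β → Matrix ι ι F) (f : ℕ → β → F) (i : ℕ) (w : List (β → F))
    (hw : ∀ s v, w[s]? = some v → f (i + s) = v) :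
    win T M f i w.length = (w.map (tm T M)).prod := by
  rw [win]
  congr 1
  refine List.ext_getElem (by simp) ?_
  intro s h1 h2
  rw [List.getElem_map, List.getElem_map, List.getElem_range]
  rw [List.length_map] at h2
  rw [hw s w[s] (List.getElem?_eq_getElem h2)]

variable {d k : ℕ}

/-- one step: a finer pattern -/
theorem step [IsAlgClosed F] {p : List (Option (Fin (d + 1) → F))} (hp : Good d k p)
    (h : Matrix (Fin k) (Fin k) (MonoidAlgebra F (FreeMonoid (Fin (d + 1))))) :
    ∃ p' : List (Option (Fin (d + 1) → F)), Good d k p' ∧ (∀ i v, At p i v → At p' i v) ∧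
      ∃ L, ∀ f : ℕ → Fin (d + 1) → F, (∀ i v, At p' i v → f i = v) →
        ∀ i, win (Tset h) (pen h) f i L = 0 := by
  classical
  obtain ⟨c, hc, w, hw, hw0⟩ := zero_word (Tset h) (pen h) p hp.ne (by
    rw [card_Tset]; exact hp.many)
  have hl := hp.pos
  obtain ⟨l, hldef⟩ : ∃ l, l = p.length := ⟨_, rfl⟩
  rw [← hldef] at hl
  obtain ⟨n, hn⟩ : ∃ n, n = k * c * l + 1 := ⟨_, rfl⟩
  have hwl : w.length = c * l := by
    rw [compat_length hw, flatten_replicate_length, hldef]
  set p' : List (Option (Fin (d + 1) → F)) := (List.replicate n p).flatten ++ w.map some with hp'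
  have hp'l : p'.length = (n + c) * l := by
    rw [hp', List.length_append, flatten_replicate_length, List.length_map, hwl, add_mul, hldef]
  have hleft : ∀ j, j < n * l → p'[j]? = p[j % l]? := by
    intro j hj
    rw [hldef] at hj ⊢
    rw [hp', List.getElem?_append_left (by rw [flatten_replicate_length]; exact hj),
      flatten_replicate_get _ _ _ hj]
  have hright : ∀ s, p'[n * l + s]? = (w[s]?).map some := by
    intro s
    rw [hldef, hp', List.getElem?_append_right
      (by rw [flatten_replicate_length]; exact Nat.le_add_right _ _),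
      flatten_replicate_length, List.getElem?_map, Nat.add_sub_cancel_left]
  refine ⟨p', ⟨?_, ?_⟩, ?_, 2 * ((n + c) * l), ?_⟩
  · intro v hv
    rw [hp', List.mem_append] at hv
    rcases hv with hv | hv
    · obtain ⟨q, hq, hv⟩ := List.mem_flatten.1 hv
      rw [List.eq_of_mem_replicate hq] at hv
      exact hp.ne v hv
    · obtain ⟨u, hu, huv⟩ := List.mem_map.1 hv
      rw [Option.some_inj] at huv
      rw [← huv]
      exact compat_ne hw hu
  · have e1 : p'.countP Option.isNone = n * p.countP Option.isNone := by
      rw [hp', List.countP_append, List.countP_flatten, List.map_replicate, List.sum_replicate,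
        smul_eq_mul, List.countP_map]
      have e2 : w.countP (Option.isNone ∘ some) = 0 := by
        rw [List.countP_eq_zero]
        intro v _
        simp
      rw [e2, add_zero]
    rw [e1, hp'l]
    have h1 := hp.many
    rw [← hldef] at h1
    calc k * ((n + c) * l) = n * (k * l) + k * c * l := by ring
      _ < n * (k * l) + n := by omega
      _ = n * (k * l + 1) := by ring
      _ ≤ n * (d * p.countP Option.isNone) := Nat.mul_le_mul_left _ h1
      _ = d * (n * p.countP Option.isNone) := by ring
  · intro i v hi
    rw [At, hp'l]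
    rw [At] at hi
    obtain ⟨j, hj⟩ : ∃ j, j = i % ((n + c) * l) := ⟨_, rfl⟩
    rw [← hj]
    have hj1 : j % l = i % l := by
      rw [hj]
      exact Nat.mod_mod_of_dvd _ (Dvd.intro_left _ rfl)
    by_cases h1 : j < n * l
    · rw [hleft j h1, hj1, hldef]
      exact hi
    · rw [not_lt] at h1
      obtain ⟨s, hs⟩ := Nat.exists_eq_add_of_le h1
      have hjlt : j < (n + c) * l := by
        rw [hj]
        exact Nat.mod_lt _ (by positivity)
      have hs2 : s < c * l := by
        rw [add_mul] at hjlt
        omega
      have hs3 : s % l = i % l := by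
        rw [← hj1, hs]
        rw [Nat.mul_comm, Nat.mul_add_mod]
      rw [hs, hright]
      have h2 : w[s]? = some v := by
        refine compat_get hw ?_
        rw [flatten_replicate_get _ _ _ (by rw [← hldef]; exact hs2), ← hldef, hs3, hldef]
        exact hi
      rw [h2]
      rfl
  · intro f hf i
    obtain ⟨l', hl'⟩ : ∃ l', l' = (n + c) * l := ⟨_, rfl⟩
    have hl'0 : 0 < l' := by rw [hl']; positivity
    rw [← hl']
    rw [← hl'] at hp'l
    obtain ⟨q, hq⟩ : ∃ q, q = i / l' + 1 := ⟨_, rfl⟩
    have hq1 : i < q * l' := by
      rw [hq, Nat.mul_comm]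
      exact Nat.lt_mul_div_succ i hl'0
    have hq2 : q * l' ≤ i + l' := by
      rw [hq, add_mul, one_mul]
      exact Nat.add_le_add_right (Nat.div_mul_le_self i l') _
    have hsum : n * l + c * l = l' := by rw [hl', add_mul]
    have e1 : 2 * l' = (q * l' + n * l - i) + (c * l + (i + l' - q * l')) := by omega
    rw [e1, win_add, win_add]
    have e2 : i + (q * l' + n * l - i) = q * l' + n * l := by omega
    have e3 : win (Tset h) (pen h) f (i + (q * l' + n * l - i)) (c * l) = 0 := by
      rw [e2, ← hwl, win_word _ _ _ _ w, hw0]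
      intro s v hs
      have hs2 : s < c * l := by
        rw [← hwl]
        exact (List.getElem?_eq_some_iff.1 hs).1
      apply hf
      rw [At, hp'l]
      have e4 : (q * l' + n * l + s) % l' = n * l + s := by
        rw [add_assoc, Nat.mul_comm, Nat.mul_add_mod]
        exact Nat.mod_eq_of_lt (by omega)
      rw [e4, hright, hs]
      rfl
    rw [e3, zero_mul, mul_zero]

theorem countable_alg [Countable F] {α : Type} [Countable α] :
    Countable (MonoidAlgebra F (FreeMonoid α)) := by
  have h1 : Countable (FreeMonoid α) := inferInstanceAs (Countable (List α))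
  exact MonoidAlgebra.coeff_injective.countable

/-- **the sequence** -/
theorem exists_seq [IsAlgClosed F] [Countable F] (hk : k < d) :
    ∃ f : ℕ → Fin (d + 1) → F, (∀ i, f i ≠ 0) ∧
      ∀ h : Matrix (Fin k) (Fin k) (MonoidAlgebra F (FreeMonoid (Fin (d + 1)))),
        (∀ a b, (h a b).coeff 1 = 0) → IsNilpotent (h.map (rho f)) := by
  classical
  have hcA : Countable (MonoidAlgebra F (FreeMonoid (Fin (d + 1)))) := countable_alg
  have hcM : Countable (Matrix (Fin k) (Fin k) (MonoidAlgebra F (FreeMonoid (Fin (d + 1))))) :=
    inferInstanceAs (Countable (Fin k → Fin k → MonoidAlgebra F (FreeMonoid (Fin (d + 1)))))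
  obtain ⟨e, he⟩ := exists_surjective_nat
    (Matrix (Fin k) (Fin k) (MonoidAlgebra F (FreeMonoid (Fin (d + 1)))))
  -- the patterns
  have h0 : Good d k ([none] : List (Option (Fin (d + 1) → F))) :=
    ⟨fun v hv => by simp at hv, by simpa using hk⟩
  have hstep : ∀ (Q : {p : List (Option (Fin (d + 1) → F)) // Good d k p})
      (h : Matrix (Fin k) (Fin k) (MonoidAlgebra F (FreeMonoid (Fin (d + 1))))),
      ∃ Q' : {p : List (Option (Fin (d + 1) → F)) // Good d k p},
        (∀ i v, At Q.1 i v → At Q'.1 i v) ∧
        ∃ L, ∀ f : ℕ → Fin (d + 1) → F, (∀ i v, At Q'.1 i v → f i = v) →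
          ∀ i, win (Tset h) (pen h) f i L = 0 := by
    intro Q h
    obtain ⟨p', h1, h2, h3⟩ := step Q.2 h
    exact ⟨⟨p', h1⟩, h2, h3⟩
  choose st hst2 hst3 using hstep
  let P : ℕ → {p : List (Option (Fin (d + 1) → F)) // Good d k p} := fun n =>
    Nat.rec ⟨_, h0⟩ (fun n Q => st Q (e n)) n
  have hPs : ∀ n, P (n + 1) = st (P n) (e n) := fun n => rfl
  have hmono : ∀ n m, n ≤ m → ∀ i v, At (P n).1 i v →
      At (P m).1 i v := by
    intro n m hnm
    induction m, hnm using Nat.le_induction with
    | base => exact fun i v h => h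
    | succ m _ ih =>
      intro i v h
      have h1 := hst2 (P m) (e m) i v (ih i v h)
      rw [hPs]
      exact h1
  let f : ℕ → Fin (d + 1) → F := fun i =>
    if h : ∃ v, ∃ n, At (P n).1 i v then h.choose else fun _ => 1
  have hf : ∀ n i v, At (P n).1 i v → f i = v := by
    intro n i v hv
    have hex : ∃ v, ∃ n, At (P n).1 i v := ⟨v, n, hv⟩
    have hfi : f i = hex.choose := dif_pos hex
    obtain ⟨m, hm⟩ := hex.choose_spec
    rw [hfi]
    have h1 := hmono n (max n m) (le_max_left _ _) i v hv
    have h2 := hmono m (max n m) (le_max_right _ _) i _ hm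
    rw [At] at h1 h2
    rw [h1, Option.some_inj, Option.some_inj] at h2
    exact h2.symm
  refine ⟨f, ?_, ?_⟩
  · intro i
    by_cases hex : ∃ v, ∃ n, At (P n).1 i v
    · obtain ⟨v, n, hv⟩ := hex
      rw [hf n i v hv]
      exact (P n).2.ne v (List.mem_of_getElem? hv)
    · have hfi : f i = fun _ => 1 := dif_neg hex
      rw [hfi]
      intro h1
      exact one_ne_zero (congrFun h1 0)
  · intro h hh
    obtain ⟨n, rfl⟩ := he h
    obtain ⟨L, hL⟩ := hst3 (P n) (e n)
    exact ⟨L, nil_of_zero (e n) hh f L (hL f (fun i v hv => hf (n + 1) i v (by rw [hPs]; exact hv)))⟩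

end

end Pool.Agent.Koe
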